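import Mathlib

/-! # Valuations of an algebraic extension over a discrete one -/

namespace Pool.Agent.QN

/-- the values on `Q` are the powers of `π < 1` -/
structure Disc (Q : Type) {M Γ : Type} [Field Q] [Field M] [Algebra Q M]
    [LinearOrderedCommGroupWithZero Γ] (v : Valuation M Γ) (π : Γ) : Prop where
  pos : 0 < π
  lt : π < 1
  val : ∀ q : Q, q ≠ 0 → ∃ t : ℤ, v (algebraMap Q M q) = π ^ t
  surj : ∃ q : Q, v (algebraMap Q M q) = π

variable {Q M Γ : Type} [Field Q] [Field M] [Algebra Q M] [LinearOrderedCommGroupWithZero Γ]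

theorem Disc.aux {v : Valuation M Γ} {π : Γ} (h : Disc Q v π) {z : M} (hz : z ≠ 0) {a b : Q}
    (ha : a ≠ 0) (hb : b ≠ 0) {i j : ℕ} (hij : i < j)
    (e : v (algebraMap Q M a * z ^ i) = v (algebraMap Q M b * z ^ j)) :
    ∃ (m : ℕ) (t : ℤ), 0 < m ∧ v z ^ m = π ^ t := by
  obtain ⟨s, hs⟩ := h.val a ha
  obtain ⟨t, ht⟩ := h.val b hb
  have hπ : π ≠ 0 := h.pos.ne'
  have hvz : v z ≠ 0 := (Valuation.ne_zero_iff v).2 hz
  refine ⟨j - i, s - t, by omega, ?_⟩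
  rw [map_mul, map_mul, map_pow, map_pow, hs, ht] at e
  have e2 : v z ^ j = v z ^ (j - i) * v z ^ i := by
    rw [← pow_add]
    congr 1
    omega
  rw [e2, ← mul_assoc] at e
  have e3 := mul_right_cancel₀ (pow_ne_zero i hvz) e
  rw [zpow_sub₀ hπ, e3, mul_div_cancel_left₀ _ (zpow_ne_zero t hπ)]

/-- torsion: two terms of an equation of `z` over `Q` have the same maximal value -/
theorem Disc.torsion [Algebra.IsAlgebraic Q M] {v : Valuation M Γ} {π : Γ} (h : Disc Q v π) (z : M)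
    (hz : z ≠ 0) : ∃ (m : ℕ) (t : ℤ), 0 < m ∧ v z ^ m = π ^ t := by
  classical
  obtain ⟨p, hp, hpz⟩ := Algebra.IsAlgebraic.isAlgebraic (R := Q) z
  have hsum : ∑ i ∈ p.support, algebraMap Q M (p.coeff i) * z ^ i = 0 := by
    rw [← hpz, Polynomial.aeval_def, Polynomial.eval₂_eq_sum, Polynomial.sum_def]
  have hne : p.support.Nonempty := Polynomial.support_nonempty.2 hp
  obtain ⟨i, hi, hmax⟩ := Finset.exists_max_image p.support
    (fun i => v (algebraMap Q M (p.coeff i) * z ^ i)) hne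
  have hterm : ∀ j ∈ p.support, v (algebraMap Q M (p.coeff j) * z ^ j) ≠ 0 := by
    intro j hj
    rw [Valuation.ne_zero_iff]
    exact mul_ne_zero ((map_ne_zero _).2 (Polynomial.mem_support_iff.1 hj)) (pow_ne_zero _ hz)
  obtain ⟨j, hj, hji, e⟩ : ∃ j ∈ p.support, j ≠ i ∧
      v (algebraMap Q M (p.coeff i) * z ^ i) = v (algebraMap Q M (p.coeff j) * z ^ j) := by
    by_contra hcon
    push Not at hcon
    have h1 : ∀ j ∈ p.support.erase i, v (algebraMap Q M (p.coeff j) * z ^ j) <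
        v (algebraMap Q M (p.coeff i) * z ^ i) := by
      intro j hj
      have hj' := Finset.mem_of_mem_erase hj
      exact lt_of_le_of_ne (hmax j hj') (hcon j hj' (Finset.ne_of_mem_erase hj)).symm
    have h2 := Valuation.map_sum_lt v (hterm i hi) h1
    rw [← Finset.add_sum_erase _ _ hi] at hsum
    rw [eq_neg_of_add_eq_zero_left hsum, Valuation.map_neg] at h2
    exact lt_irrefl _ h2
  have ha := Polynomial.mem_support_iff.1 hi
  have hb := Polynomial.mem_support_iff.1 hj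
  rcases lt_or_gt_of_ne hji with hlt | hlt
  · exact h.aux hz hb ha hlt e.symm
  · exact h.aux hz ha hb hlt e

theorem Disc.zpow_lt {v : Valuation M Γ} {π : Γ} (h : Disc Q v π) {s t : ℤ} (hst : s < t) :
    π ^ t < π ^ s := zpow_lt_zpow_right_of_lt_one₀ h.pos h.lt hst

theorem Disc.zpow_le {v : Valuation M Γ} {π : Γ} (h : Disc Q v π) {s t : ℤ} (hst : s ≤ t) :
    π ^ t ≤ π ^ s := by
  rcases hst.eq_or_lt with rfl | h1
  · exact le_rfl
  · exact (h.zpow_lt h1).le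

theorem Disc.pow_le [Algebra.IsAlgebraic Q M] {v : Valuation M Γ} {π : Γ} (h : Disc Q v π) (z : M)
    (hz : v z < 1) : ∃ m : ℕ, v z ^ m ≤ π := by
  by_cases h0 : z = 0
  · refine ⟨1, ?_⟩
    rw [h0, map_zero, pow_one]
    exact h.pos.le
  obtain ⟨m, t, hm, e⟩ := h.torsion z h0
  refine ⟨m, ?_⟩
  have ht : 0 < t := by
    by_contra hcon
    have h1 := h.zpow_le (not_lt.1 hcon)
    rw [zpow_zero, ← e] at h1
    exact absurd (pow_lt_one₀ zero_le hz hm.ne') (not_lt.2 h1)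
  rw [e]
  have h2 := h.zpow_le (show (1 : ℤ) ≤ t by omega)
  rwa [zpow_one] at h2

theorem Disc.mul_pow_le [Algebra.IsAlgebraic Q M] {v : Valuation M Γ} {π : Γ} (h : Disc Q v π)
    (z : M) : ∃ N : ℕ, v z * π ^ N ≤ 1 := by
  by_cases h0 : z = 0
  · refine ⟨0, ?_⟩
    rw [h0, map_zero, zero_mul]
    exact zero_le_one
  obtain ⟨m, t, hm, e⟩ := h.torsion z h0
  refine ⟨t.natAbs, ?_⟩
  have hπ : π ≠ 0 := h.pos.ne'
  have e2 : (v z * π ^ t.natAbs) ^ m = π ^ (t + (t.natAbs * m : ℕ)) := by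
    rw [mul_pow, e, zpow_add₀ hπ, zpow_natCast, pow_mul]
  have h1 : (0 : ℤ) ≤ t + (t.natAbs * m : ℕ) := by
    have h2 : (t.natAbs : ℤ) ≤ (t.natAbs * m : ℕ) := by
      exact_mod_cast Nat.le_mul_of_pos_right _ hm
    omega
  have h3 := h.zpow_le h1
  rw [zpow_zero, ← e2] at h3
  exact (pow_le_one_iff_of_nonneg zero_le hm.ne').1 h3

/-- separation of two valuations `v ∘ σ`, `v ∘ τ` at `1` -/
theorem Disc.sep [Algebra.IsAlgebraic Q M] {v : Valuation M Γ} {π : Γ} (h : Disc Q v π)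
    (σ τ : M ≃ₐ[Q] M) (z : M) (hz : v (σ z) ≠ v (τ z)) :
    ∃ (m : ℤ) (q : Q), v (σ (z ^ m * algebraMap Q M q)) ≤ 1 ∧
      1 < v (τ (z ^ m * algebraMap Q M q)) := by
  have hπ : π ≠ 0 := h.pos.ne'
  have h0 : z ≠ 0 := by
    intro h1
    apply hz
    simp [h1]
  have hσ : σ z ≠ 0 := (map_ne_zero_iff σ σ.injective).2 h0
  have hτ : τ z ≠ 0 := (map_ne_zero_iff τ τ.injective).2 h0
  obtain ⟨m₁, t₁, hm₁, e₁⟩ := h.torsion (σ z) hσ
  obtain ⟨m₂, t₂, hm₂, e₂⟩ := h.torsion (τ z) hτ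
  obtain ⟨m, s, t, hm, es, et⟩ : ∃ (m : ℕ) (s t : ℤ), 0 < m ∧ v (σ z) ^ m = π ^ s ∧
      v (τ z) ^ m = π ^ t := by
    refine ⟨m₁ * m₂, t₁ * m₂, t₂ * m₁, Nat.mul_pos hm₁ hm₂, ?_, ?_⟩
    · rw [pow_mul, e₁, zpow_mul, zpow_natCast]
    · rw [mul_comm m₁, pow_mul, e₂, zpow_mul, zpow_natCast]
  have hst : s ≠ t := by
    rintro rfl
    apply hz
    rw [← et] at es
    exact (pow_left_inj₀ zero_le zero_le hm.ne').1 es
  obtain ⟨q₀, hq₀⟩ := h.surj
  have hq : ∀ n : ℤ, v (algebraMap Q M (q₀ ^ n)) = π ^ n := by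
    intro n
    rw [map_zpow₀, map_zpow₀, hq₀]
  rcases lt_or_gt_of_ne hst with hlt | hlt
  · refine ⟨-m, q₀ ^ s, ?_, ?_⟩
    · rw [map_mul, map_zpow₀, AlgEquiv.commutes, map_mul, map_zpow₀, hq, zpow_neg, zpow_natCast, es,
        inv_mul_cancel₀ (zpow_ne_zero _ hπ)]
    · rw [map_mul, map_zpow₀, AlgEquiv.commutes, map_mul, map_zpow₀, hq, zpow_neg, zpow_natCast, et,
        ← zpow_neg, ← zpow_add₀ hπ]
      have h1 := h.zpow_lt (show -t + s < 0 by omega)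
      rwa [zpow_zero] at h1
  · refine ⟨m, q₀ ^ (-s), ?_, ?_⟩
    · rw [map_mul, map_zpow₀, AlgEquiv.commutes, map_mul, map_zpow₀, hq, zpow_natCast, es,
        ← zpow_add₀ hπ, add_neg_cancel, zpow_zero]
    · rw [map_mul, map_zpow₀, AlgEquiv.commutes, map_mul, map_zpow₀, hq, zpow_natCast, et,
        ← zpow_add₀ hπ]
      have h1 := h.zpow_lt (show t + -s < 0 by omega)
      rwa [zpow_zero] at h1

end Pool.Agent.QN
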