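import Mathlib

/-! # Cosets of a subgroup of a finite Galois group and the conjugates -/

namespace Pool.Agent.QN

variable {Q M : Type} [Field Q] [Field M] [Algebra Q M]

/-- the left cosets of `H` -/
def Cs (H : Subgroup (M ≃ₐ[Q] M)) : Type := (M ≃ₐ[Q] M) ⧸ H

/-- the coset of `σ` -/
def Cs.mk (H : Subgroup (M ≃ₐ[Q] M)) (σ : M ≃ₐ[Q] M) : Cs H := QuotientGroup.mk σ

noncomputable instance [FiniteDimensional Q M] (H : Subgroup (M ≃ₐ[Q] M)) : Fintype (Cs H) :=
  @Fintype.ofFinite _ (inferInstanceAs (Finite ((M ≃ₐ[Q] M) ⧸ H)))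

noncomputable instance (H : Subgroup (M ≃ₐ[Q] M)) : DecidableEq (Cs H) := Classical.decEq _

theorem Cs.mk_surjective (H : Subgroup (M ≃ₐ[Q] M)) : Function.Surjective (Cs.mk H) :=
  QuotientGroup.mk_surjective

theorem Cs.mk_eq_iff (H : Subgroup (M ≃ₐ[Q] M)) (σ τ : M ≃ₐ[Q] M) :
    Cs.mk H σ = Cs.mk H τ ↔ σ⁻¹ * τ ∈ H := QuotientGroup.eq

/-- the conjugate of `y` that belongs to the coset `q` (`y` fixed by `H`) -/
noncomputable def cj (H : Subgroup (M ≃ₐ[Q] M)) (y : M) (q : Cs H) : M :=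
  (Function.surjInv (Cs.mk_surjective H) q) y

theorem cj_mk (H : Subgroup (M ≃ₐ[Q] M)) (y : M) (hy : ∀ h ∈ H, h y = y) (σ : M ≃ₐ[Q] M) :
    cj H y (Cs.mk H σ) = σ y := by
  obtain ⟨τ, hτ⟩ : ∃ τ : M ≃ₐ[Q] M, τ = Function.surjInv (Cs.mk_surjective H) (Cs.mk H σ) :=
    ⟨_, rfl⟩
  have h1 : Cs.mk H τ = Cs.mk H σ := by
    rw [hτ]
    exact Function.surjInv_eq (Cs.mk_surjective H) (Cs.mk H σ)
  have h2 := hy _ ((Cs.mk_eq_iff H _ _).1 h1)
  have h3 := congrArg τ h2
  rw [← AlgEquiv.mul_apply, ← mul_assoc, mul_inv_cancel, one_mul] at h3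
  rw [h3, hτ]
  rfl

theorem cj_injective (H : Subgroup (M ≃ₐ[Q] M)) (y : M) (hy : ∀ σ : M ≃ₐ[Q] M, σ ∈ H ↔ σ y = y) :
    Function.Injective (cj H y) := by
  intro q q' h
  obtain ⟨σ, rfl⟩ := Cs.mk_surjective H q
  obtain ⟨τ, rfl⟩ := Cs.mk_surjective H q'
  have hy' : ∀ g ∈ H, g y = y := fun g hg => (hy g).1 hg
  rw [cj_mk H y hy', cj_mk H y hy'] at h
  rw [Cs.mk_eq_iff, hy, AlgEquiv.mul_apply, ← h, ← AlgEquiv.mul_apply, inv_mul_cancel,
    AlgEquiv.one_apply]

/-- two comparable subgroups with the same number of cosets are equal -/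
theorem eq_of_card_le [FiniteDimensional Q M] (H H' : Subgroup (M ≃ₐ[Q] M)) (h : H ≤ H')
    (hc : Fintype.card (Cs H) ≤ Fintype.card (Cs H')) : H = H' := by
  have e : ∀ J : Subgroup (M ≃ₐ[Q] M), Fintype.card (Cs J) = J.index := by
    intro J
    rw [← Nat.card_eq_fintype_card]
    rfl
  rw [e, e] at hc
  have h1 := H.card_mul_index
  have h2 := H'.card_mul_index
  have h3 : 0 < H'.index := Nat.pos_of_ne_zero (Subgroup.index_ne_zero_of_finite)
  refine Subgroup.eq_of_le_of_card_ge h ?_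
  by_contra h4
  push Not at h4
  have h5 : Nat.card H * H.index < Nat.card H' * H'.index :=
    Nat.mul_lt_mul_of_lt_of_le h4 hc h3
  omega

/-- the polynomial of the conjugates has coefficients in `Q` -/
theorem cj_poly [FiniteDimensional Q M] [IsGalois Q M] (H : Subgroup (M ≃ₐ[Q] M)) (y : M)
    (hy : ∀ h ∈ H, h y = y) :
    ∃ nQ : Polynomial Q, nQ.Monic ∧ nQ.map (algebraMap Q M) =
      ∏ q : Cs H, (Polynomial.X - Polynomial.C (cj H y q)) := by
  classical
  set P : Polynomial M := ∏ q : Cs H, (Polynomial.X - Polynomial.C (cj H y q)) with hP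
  have hfix : ∀ τ : M ≃ₐ[Q] M, P.map (τ : M →+* M) = P := by
    intro τ
    let e : Cs H ≃ Cs H :=
      (MulAction.toPerm τ : Equiv.Perm ((M ≃ₐ[Q] M) ⧸ H))
    have he : ∀ q, τ (cj H y q) = cj H y (e q) := by
      intro q
      obtain ⟨σ, rfl⟩ := Cs.mk_surjective H q
      have h1 : e (Cs.mk H σ) = Cs.mk H (τ * σ) := rfl
      rw [h1, cj_mk H y hy, cj_mk H y hy, AlgEquiv.mul_apply]
    rw [hP, Polynomial.map_prod]
    rw [← Equiv.prod_comp e fun q => Polynomial.X - Polynomial.C (cj H y q)]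
    refine Finset.prod_congr rfl fun q _ => ?_
    rw [Polynomial.map_sub, Polynomial.map_X, Polynomial.map_C, ← he q]
    rfl
  have hcoef : ∀ n, P.coeff n ∈ Set.range (algebraMap Q M) := by
    intro n
    rw [IsGalois.mem_range_algebraMap_iff_fixed]
    intro τ
    have h1 := congrArg (fun p => Polynomial.coeff p n) (hfix τ)
    simp only [Polynomial.coeff_map] at h1
    exact h1
  obtain ⟨nQ, hnQ⟩ : ∃ nQ : Polynomial Q, nQ.map (algebraMap Q M) = P := by
    have h1 : P ∈ Polynomial.lifts (algebraMap Q M) :=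
      (Polynomial.lifts_iff_coeff_lifts P).2 hcoef
    exact (Polynomial.mem_lifts P).1 h1
  refine ⟨nQ, ?_, hnQ⟩
  have hPm : P.Monic := Polynomial.monic_prod_of_monic _ _ fun q _ =>
    Polynomial.monic_X_sub_C _
  exact Polynomial.monic_of_injective (algebraMap Q M).injective (by rw [hnQ]; exact hPm)

end Pool.Agent.QN
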