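import Pool.Agent.QS.Wd
import Pool.Agent.QS.ValP
import Pool.Agent.QS.ValI
import Pool.Agent.QN.Cj
import Pool.Agent.QN.Arch

/-! # Relations and valuations for a field over the rational function field -/

namespace Pool.Agent.QN

open MvPolynomial Pool.Agent.QS

variable {K : Type} [Field K] {k : ℕ} {M Γ : Type} [Field M] [Algebra (A K k) M]
  [LinearOrderedCommGroupWithZero Γ]

/-- `y` satisfies a nonzero relation of degree at most `d` -/
def ExM (d : ℕ) (y : M) : Prop :=
  ∃ R : Polynomial (A K k), R ≠ 0 ∧ wd R ≤ d ∧ Polynomial.aeval y R = 0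

/-- a valuation over the prime `p` -/
structure IsPV (p : A K k) (v : Valuation M Γ) : Prop where
  le_one : ∀ f : A K k, v (algebraMap (A K k) M f) ≤ 1
  lt_one : ∀ f : A K k, v (algebraMap (A K k) M f) < 1 ↔ p ∣ f

variable (K) in
/-- a valuation over the degree valuation -/
structure IsIV (j0 : Fin k) (v : Valuation M Γ) : Prop where
  one_lt : 1 < v (algebraMap (A K k) M (X j0))
  val : ∀ f : A K k, f ≠ 0 →
    v (algebraMap (A K k) M f) = v (algebraMap (A K k) M (X j0)) ^ f.totalDegree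

/-- an algebraic extension of the rational function field embeds into its algebraic closure -/
private theorem exists_emb (K : Type) [Field K] (k : ℕ) (M : Type) [Field M] [Algebra (A K k) M]
    [Algebra (Q K k) M] [IsScalarTower (A K k) (Q K k) M] [Algebra.IsAlgebraic (Q K k) M] :
    ∃ φ : M →+* Om K k, ∀ f : A K k,
      φ (algebraMap (A K k) M f) = algebraMap (A K k) (Om K k) f := by
  let ψ : M →ₐ[Q K k] Om K k := IsAlgClosed.lift
  refine ⟨ψ.toRingHom, fun f => ?_⟩
  rw [IsScalarTower.algebraMap_apply (A K k) (Q K k) M,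
    IsScalarTower.algebraMap_apply (A K k) (Q K k) (Om K k)]
  exact ψ.commutes _

theorem exists_PV [Algebra (Q K k) M] [IsScalarTower (A K k) (Q K k) M]
    [Algebra.IsAlgebraic (Q K k) M] (p : A K k) (hp : Prime p) :
    ∃ (Γ : Type) (_ : LinearOrderedCommGroupWithZero Γ) (v : Valuation M Γ), IsPV p v := by
  obtain ⟨φ, hφ⟩ := exists_emb K k M
  obtain ⟨Γ, i, v, h1, h2⟩ := exists_val_prime p hp
  refine ⟨Γ, i, v.comap φ, ⟨fun f => ?_, fun f => ?_⟩⟩
  · rw [Valuation.comap_apply, hφ]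
    exact h1 f
  · rw [Valuation.comap_apply, hφ]
    exact h2 f

theorem exists_IV [Algebra (Q K k) M] [IsScalarTower (A K k) (Q K k) M]
    [Algebra.IsAlgebraic (Q K k) M] (j0 : Fin k) :
    ∃ (Γ : Type) (_ : LinearOrderedCommGroupWithZero Γ) (v : Valuation M Γ), IsIV K j0 v := by
  obtain ⟨φ, hφ⟩ := exists_emb K k M
  obtain ⟨Γ, i, v, h1, h2⟩ := exists_val_inf (K := K) j0
  refine ⟨Γ, i, v.comap φ, ⟨?_, fun f hf => ?_⟩⟩
  · rw [Valuation.comap_apply, hφ]
    exact h1
  · rw [Valuation.comap_apply, Valuation.comap_apply, hφ, hφ]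
    exact h2 f hf

/-- the value of a polynomial at a prime -/
theorem IsPV.val {p : A K k} (hp : Prime p) {v : Valuation M Γ} (h : IsPV p v) (f g : A K k)
    (m : ℕ) (hf : f = p ^ m * g) (hg : ¬ p ∣ g) :
    v (algebraMap (A K k) M f) = v (algebraMap (A K k) M p) ^ m := by
  have h1 : v (algebraMap (A K k) M g) = 1 :=
    le_antisymm (h.le_one g) (not_lt.1 fun hlt => hg ((h.lt_one g).1 hlt))
  rw [hf, map_mul, map_pow, map_mul, map_pow, h1, mul_one]

theorem IsPV.const {p : A K k} (hp : Prime p) {v : Valuation M Γ} (h : IsPV p v) (c : K)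
    (hc : c ≠ 0) : v (algebraMap (A K k) M (C c)) = 1 := by
  have hu : IsUnit (C c : A K k) := (isUnit_iff_ne_zero.2 hc).map C
  have h1 := h.val hp (C c) (C c) 0 (by rw [pow_zero, one_mul])
    (fun hd => hp.not_isUnit (isUnit_of_dvd_unit hd hu))
  rw [h1, pow_zero]

theorem IsIV.const {j0 : Fin k} {v : Valuation M Γ} (h : IsIV K j0 v) (c : K)
    (hc : c ≠ 0) : v (algebraMap (A K k) M (C c)) = 1 := by
  rw [h.val (C c) (fun h0 => hc ((C_eq_zero).1 h0)), totalDegree_C, pow_zero]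

private theorem algebraMap_ne [Algebra (Q K k) M] [IsScalarTower (A K k) (Q K k) M] {f : A K k}
    (hf : f ≠ 0) : algebraMap (A K k) M f ≠ 0 := by
  rw [IsScalarTower.algebraMap_apply (A K k) (Q K k) M]
  exact (map_ne_zero _).2 ((map_ne_zero_iff _ (IsFractionRing.injective (A K k) (Q K k))).2 hf)

private theorem exists_frac (q : Q K k) (hq : q ≠ 0) : ∃ a b : A K k, a ≠ 0 ∧ b ≠ 0 ∧
    q = algebraMap (A K k) (Q K k) a / algebraMap (A K k) (Q K k) b := by
  obtain ⟨a, b, hb, e⟩ := IsFractionRing.div_surjective (A := A K k) q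
  refine ⟨a, b, ?_, nonZeroDivisors.ne_zero hb, e.symm⟩
  rintro rfl
  rw [map_zero, zero_div] at e
  exact hq e.symm

theorem IsPV.disc [Algebra (Q K k) M] [IsScalarTower (A K k) (Q K k) M] {p : A K k} (hp : Prime p)
    {v : Valuation M Γ} (h : IsPV p v) : Disc (Q K k) v (v (algebraMap (A K k) M p)) := by
  have h0 : v (algebraMap (A K k) M p) ≠ 0 := (Valuation.ne_zero_iff v).2 (algebraMap_ne hp.ne_zero)
  have hval : ∀ a : A K k, a ≠ 0 → ∃ m : ℕ,
      v (algebraMap (A K k) M a) = v (algebraMap (A K k) M p) ^ m := by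
    intro a ha
    obtain ⟨m, g, hg, e⟩ := WfDvdMonoid.max_power_factor' ha hp.not_isUnit
    exact ⟨m, h.val hp a g m e hg⟩
  refine ⟨zero_lt_iff.2 h0, (h.lt_one p).2 dvd_rfl, fun q hq => ?_, ?_⟩
  · obtain ⟨a, b, ha, hb, rfl⟩ := exists_frac q hq
    obtain ⟨m, hm⟩ := hval a ha
    obtain ⟨n, hn⟩ := hval b hb
    refine ⟨(m : ℤ) - n, ?_⟩
    rw [map_div₀, map_div₀, ← IsScalarTower.algebraMap_apply (A K k) (Q K k) M,
      ← IsScalarTower.algebraMap_apply (A K k) (Q K k) M, hm, hn, zpow_sub₀ h0, zpow_natCast,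
      zpow_natCast]
  · exact ⟨algebraMap (A K k) (Q K k) p, by
      rw [← IsScalarTower.algebraMap_apply (A K k) (Q K k) M]⟩

theorem IsIV.disc [Algebra (Q K k) M] [IsScalarTower (A K k) (Q K k) M] {j0 : Fin k}
    {v : Valuation M Γ} (h : IsIV K j0 v) :
    Disc (Q K k) v (v (algebraMap (A K k) M (X j0)))⁻¹ := by
  have h0 : v (algebraMap (A K k) M (X j0)) ≠ 0 :=
    (Valuation.ne_zero_iff v).2 (algebraMap_ne (X_ne_zero j0))
  refine ⟨zero_lt_iff.2 (inv_ne_zero h0), (inv_lt_one₀ (zero_lt_iff.2 h0)).2 h.one_lt,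
    fun q hq => ?_, ?_⟩
  · obtain ⟨a, b, ha, hb, rfl⟩ := exists_frac q hq
    refine ⟨(b.totalDegree : ℤ) - a.totalDegree, ?_⟩
    rw [map_div₀, map_div₀, ← IsScalarTower.algebraMap_apply (A K k) (Q K k) M,
      ← IsScalarTower.algebraMap_apply (A K k) (Q K k) M, h.val a ha, h.val b hb, inv_zpow',
      neg_sub, zpow_sub₀ h0, zpow_natCast, zpow_natCast]
  · exact ⟨(algebraMap (A K k) (Q K k) (X j0))⁻¹, by
      rw [map_inv₀, map_inv₀, ← IsScalarTower.algebraMap_apply (A K k) (Q K k) M]⟩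

end Pool.Agent.QN
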