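import Pool.Agent.QN.NDefs
import Pool.Agent.QS.Gl
import Pool.Agent.QS.Prim

/-! # The primitive minimal polynomial -/

namespace Pool.Agent.QN

open MvPolynomial Pool.Agent.QS

variable {K : Type} [Field K] [CharZero K] {k : ℕ} {M : Type} [Field M] [Algebra (A K k) M]
  [Algebra (Q K k) M] [IsScalarTower (A K k) (Q K k) M]

/-- `N` is the primitive multiple `α ∏ (T - σ y)` -/
structure IsN (H : Subgroup (M ≃ₐ[Q K k] M)) [Fintype (Cs H)] (y : M) (α : A K k)
    (N : Polynomial (A K k)) : Prop where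
  ne : α ≠ 0
  map : N.map (algebraMap (A K k) M) = Polynomial.C (algebraMap (A K k) M α) *
    ∏ q : Cs H, (Polynomial.X - Polynomial.C (cj H y q))
  prim : ∀ p : A K k, Prime p → ∃ j, ¬ p ∣ N.coeff j

omit [CharZero K] in
theorem algM_injective : Function.Injective (algebraMap (A K k) M) := by
  rw [IsScalarTower.algebraMap_eq (A K k) (Q K k) M]
  exact (algebraMap (Q K k) M).injective.comp (IsFractionRing.injective _ _)

omit [CharZero K] in
/-- the primitive multiple of a polynomial in one variable with some coefficient `1` -/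
theorem exists_primitive1 (nQ : Polynomial (Q K k)) (m0 : ℕ) (h : nQ.coeff m0 = 1) :
    ∃ (α : A K k) (N : Polynomial (A K k)), α ≠ 0 ∧
      N.map (algebraMap (A K k) (Q K k)) =
        Polynomial.C (algebraMap (A K k) (Q K k) α) * nQ ∧
      ∀ p : A K k, Prime p → ∃ m, ¬ p ∣ N.coeff m := by
  let φ := MvPolynomial.uniqueAlgEquiv (Q K k) PUnit
  let ψ := MvPolynomial.uniqueAlgEquiv (A K k) PUnit
  have hc : ∀ (p : Polynomial (Q K k)) (m : PUnit →₀ ℕ),
      MvPolynomial.coeff m (φ.symm p) = p.coeff (m PUnit.unit) := by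
    intro p m
    exact MvPolynomial.coeff_uniqueAlgEquiv_symm (Q K k) p m
  have hc' : ∀ (p : Polynomial (A K k)) (m : PUnit →₀ ℕ),
      MvPolynomial.coeff m (ψ.symm p) = p.coeff (m PUnit.unit) := by
    intro p m
    exact MvPolynomial.coeff_uniqueAlgEquiv_symm (A K k) p m
  have hs : ∀ n : ℕ, (Finsupp.single PUnit.unit n) PUnit.unit = n := fun n => by simp
  obtain ⟨α, N', hα, hN', hp⟩ := exists_primitive (φ.symm nQ) (Finsupp.single PUnit.unit m0)
    (by rw [hc, hs]; exact h)
  obtain ⟨N, rfl⟩ := ψ.symm.surjective N'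
  refine ⟨α, N, hα, ?_, ?_⟩
  · ext m
    have h1 := congrArg (MvPolynomial.coeff (Finsupp.single PUnit.unit m)) hN'
    rw [MvPolynomial.coeff_map, hc', hs, MvPolynomial.coeff_C_mul, hc, hs] at h1
    rw [Polynomial.coeff_map, h1, Polynomial.coeff_C_mul]
  · intro p hpp
    obtain ⟨m, hm⟩ := hp p hpp
    exact ⟨m PUnit.unit, by rw [← hc']; exact hm⟩

variable [FiniteDimensional (Q K k) M] [IsGalois (Q K k) M]

/-- an element with a relation of degree `≤ d` -/
theorem exists_N (d : ℕ) (y : M) (hy : ExM (K := K) (k := k) d y) (H : Subgroup (M ≃ₐ[Q K k] M))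
    (hH : ∀ σ : M ≃ₐ[Q K k] M, σ ∈ H ↔ σ y = y) :
    ∃ (α : A K k) (N : Polynomial (A K k)), IsN H y α N ∧ wd N ≤ d := by
  obtain ⟨R, hR0, hRd, hR⟩ := hy
  obtain ⟨nQ, hmon, hnQ⟩ := cj_poly H y fun h hh => (hH h).1 hh
  obtain ⟨α, N, hα, hN, hprim⟩ := exists_primitive1 nQ nQ.natDegree hmon
  have hmapN : N.map (algebraMap (A K k) M) = Polynomial.C (algebraMap (A K k) M α) *
      ∏ q : Cs H, (Polynomial.X - Polynomial.C (cj H y q)) := by
    rw [← hnQ, IsScalarTower.algebraMap_eq (A K k) (Q K k) M, ← Polynomial.map_map, hN,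
      Polynomial.map_mul, Polynomial.map_C]
    rfl
  refine ⟨α, N, ⟨hα, hmapN, hprim⟩, le_trans (wd_le_of_dvd N R hR0 hprim ?_) hRd⟩
  have hroot : ∀ q : Cs H, (R.map (algebraMap (A K k) M)).IsRoot (cj H y q) := by
    intro q
    obtain ⟨σ, hσ⟩ : ∃ σ : M ≃ₐ[Q K k] M, cj H y q = σ y := ⟨_, rfl⟩
    have h1 : Polynomial.aeval (cj H y q) (R.map (algebraMap (A K k) (Q K k))) = 0 := by
      have h2 : Polynomial.aeval y (R.map (algebraMap (A K k) (Q K k))) = 0 := by
        rw [Polynomial.aeval_map_algebraMap]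
        exact hR
      have h3 := congrArg σ h2
      rw [map_zero] at h3
      rw [← h3, hσ]
      exact (Polynomial.aeval_algHom_apply σ.toAlgHom y _)
    rw [Polynomial.aeval_map_algebraMap] at h1
    rw [Polynomial.IsRoot.def, Polynomial.eval_map_algebraMap]
    exact h1
  have hdvd : (∏ q : Cs H, (Polynomial.X - Polynomial.C (cj H y q))) ∣
      R.map (algebraMap (A K k) M) := by
    refine Finset.prod_dvd_of_coprime ?_ fun q _ => Polynomial.dvd_iff_isRoot.2 (hroot q)
    intro q _ q' _ hqq
    exact Polynomial.isCoprime_X_sub_C_of_isUnit_sub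
      (isUnit_iff_ne_zero.2 (sub_ne_zero.2 fun h => hqq (cj_injective H y hH h)))
  rw [hN]
  have hαQ : algebraMap (A K k) (Q K k) α ≠ 0 := fun h =>
    hα (IsFractionRing.injective (A K k) (Q K k) (h.trans (map_zero _).symm))
  have hu : IsUnit (Polynomial.C (algebraMap (A K k) (Q K k) α)) :=
    Polynomial.isUnit_C.2 (isUnit_iff_ne_zero.2 hαQ)
  rw [hu.mul_left_dvd, ← Polynomial.map_dvd_map' (algebraMap (Q K k) M), hnQ,
    Polynomial.map_map, ← IsScalarTower.algebraMap_eq]
  exact hdvd

variable {Γ : Type} [LinearOrderedCommGroupWithZero Γ] {H : Subgroup (M ≃ₐ[Q K k] M)} {y : M}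
  {α : A K k} {N : Polynomial (A K k)}

/-- the leading coefficient -/
theorem IsN.degree (h : IsN H y α N) : α.totalDegree + Fintype.card (Cs H) ≤ wd N := by
  have h1 : N.coeff (Fintype.card (Cs H)) = α := by
    apply algM_injective (M := M)
    rw [← Polynomial.coeff_map, h.map, Polynomial.coeff_C_mul]
    have h2 : (∏ q : Cs H, (Polynomial.X - Polynomial.C (cj H y q))).coeff
        (Fintype.card (Cs H)) = 1 := by
      have hmon : (∏ q : Cs H, (Polynomial.X - Polynomial.C (cj H y q))).Monic :=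
        Polynomial.monic_prod_X_sub_C _ _
      have hdeg : (∏ q : Cs H, (Polynomial.X - Polynomial.C (cj H y q))).natDegree =
          Fintype.card (Cs H) := by
        rw [Polynomial.natDegree_finsetProd_X_sub_C_eq_card]
        rfl
      rw [← hdeg]
      exact hmon.coeff_natDegree
    rw [h2, mul_one]
  have h2 := le_wd N (Fintype.card (Cs H)) (by rw [h1]; exact h.ne)
  rwa [h1] at h2

/-- Gauss' lemma at a prime -/
theorem IsN.prime (h : IsN H y α N) {p : A K k} (hp : Prime p) {v : Valuation M Γ}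
    (hv : IsPV p v) :
    v (algebraMap (A K k) M α) * ∏ q : Cs H, max 1 (v (cj H y q)) = 1 := by
  have hco : ∀ (q : Cs H) (m : ℕ), (Polynomial.X - Polynomial.C (cj H y q)).coeff m =
      if m = 0 then -cj H y q else if m = 1 then 1 else 0 := by
    intro q m
    rcases m with _ | _ | m
    · simp
    · simp [Polynomial.coeff_X]
    · simp [Polynomial.coeff_X]
  obtain ⟨g1, m1, g2⟩ := gauss_prod1 v (Finset.univ : Finset (Cs H))
    (fun q => Polynomial.X - Polynomial.C (cj H y q)) (fun q => max 1 (v (cj H y q)))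
    (fun q _ => ne_of_gt (lt_of_lt_of_le zero_lt_one (le_max_left _ _)))
    (fun q _ m => by
      rw [hco]
      split_ifs
      · rw [Valuation.map_neg]; exact le_max_right _ _
      · rw [map_one]; exact le_max_left _ _
      · rw [map_zero]; exact zero_le)
    (fun q _ => by
      rcases le_total 1 (v (cj H y q)) with hc | hc
      · exact ⟨0, by rw [hco, if_pos rfl, Valuation.map_neg, max_eq_right hc]⟩
      · exact ⟨1, by rw [hco, if_neg one_ne_zero, if_pos rfl, map_one, max_eq_left hc]⟩)
  have hcoef : ∀ m, v (algebraMap (A K k) M α) *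
      v ((∏ q : Cs H, (Polynomial.X - Polynomial.C (cj H y q))).coeff m) =
      v (algebraMap (A K k) M (N.coeff m)) := by
    intro m
    rw [← map_mul, ← Polynomial.coeff_C_mul, ← h.map, Polynomial.coeff_map]
  apply le_antisymm
  · rw [← g2, hcoef]
    exact hv.le_one _
  · obtain ⟨j, hj⟩ := h.prim p hp
    have h3 : v (algebraMap (A K k) M (N.coeff j)) = 1 :=
      le_antisymm (hv.le_one _) (not_lt.1 fun h4 => hj ((hv.lt_one _).1 h4))
    calc (1 : Γ) = v (algebraMap (A K k) M (N.coeff j)) := h3.symm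
      _ = _ := (hcoef j).symm
      _ ≤ _ := mul_le_mul_right (g1 j) _

/-- Gauss' lemma at infinity -/
theorem IsN.inf (h : IsN H y α N) {j0 : Fin k} {v : Valuation M Γ} (hv : IsIV K j0 v) :
    v (algebraMap (A K k) M α) *
      ∏ q : Cs H, max (v (algebraMap (A K k) M (X j0))) (v (cj H y q)) =
        v (algebraMap (A K k) M (X j0)) ^ wd N := by
  obtain ⟨x, hx⟩ : ∃ x, x = algebraMap (A K k) M (X j0) := ⟨_, rfl⟩
  have hx1 : 1 < v x := by rw [hx]; exact hv.one_lt
  rw [← hx]
  have hco : ∀ (q : Cs H) (m : ℕ),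
      (Polynomial.C x * Polynomial.X - Polynomial.C (cj H y q)).coeff m =
      if m = 0 then -cj H y q else if m = 1 then x else 0 := by
    intro q m
    rcases m with _ | _ | m
    · simp
    · simp [Polynomial.coeff_C]
    · simp
  obtain ⟨g1, m1, g2⟩ := gauss_prod1 v (Finset.univ : Finset (Cs H))
    (fun q => Polynomial.C x * Polynomial.X - Polynomial.C (cj H y q))
    (fun q => max (v x) (v (cj H y q)))
    (fun q _ => ne_of_gt (lt_of_lt_of_le (zero_lt_one.trans hx1) (le_max_left _ _)))
    (fun q _ m => by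
      rw [hco]
      split_ifs
      · rw [Valuation.map_neg]; exact le_max_right _ _
      · exact le_max_left _ _
      · rw [map_zero]; exact zero_le)
    (fun q _ => by
      rcases le_total (v x) (v (cj H y q)) with hc | hc
      · exact ⟨0, by rw [hco, if_pos rfl, Valuation.map_neg, max_eq_right hc]⟩
      · exact ⟨1, by rw [hco, if_neg one_ne_zero, if_pos rfl, max_eq_left hc]⟩)
  have hprod : ∏ q : Cs H, (Polynomial.C x * Polynomial.X - Polynomial.C (cj H y q)) =
      (∏ q : Cs H, (Polynomial.X - Polynomial.C (cj H y q))).comp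
        (Polynomial.C x * Polynomial.X) := by
    rw [Polynomial.prod_comp]
    refine Finset.prod_congr rfl fun q _ => ?_
    rw [Polynomial.sub_comp, Polynomial.X_comp, Polynomial.C_comp]
  have hcoef : ∀ m, v (algebraMap (A K k) M α) *
      v ((∏ q : Cs H, (Polynomial.C x * Polynomial.X - Polynomial.C (cj H y q))).coeff m) =
      v (algebraMap (A K k) M (N.coeff m)) * v x ^ m := by
    intro m
    rw [hprod, Polynomial.comp_C_mul_X_coeff, map_mul, ← mul_assoc, ← map_mul,
      ← Polynomial.coeff_C_mul, ← h.map, Polynomial.coeff_map, map_pow]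
  have hval : ∀ m, N.coeff m ≠ 0 → v (algebraMap (A K k) M (N.coeff m)) * v x ^ m =
      v x ^ ((N.coeff m).totalDegree + m) := by
    intro m hm
    rw [hv.val _ hm, ← hx, pow_add]
  have hN0 : N ≠ 0 := by
    rintro rfl
    have h1 := h.map
    rw [Polynomial.map_zero] at h1
    rcases mul_eq_zero.1 h1.symm with h2 | h2
    · rw [Polynomial.C_eq_zero] at h2
      exact h.ne (algM_injective (M := M) (h2.trans (map_zero _).symm))
    · exact (Polynomial.monic_prod_X_sub_C _ _).ne_zero h2
  apply le_antisymm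
  · rw [← g2, hcoef]
    by_cases h0 : N.coeff m1 = 0
    · rw [h0, map_zero, map_zero, zero_mul]; exact zero_le
    · rw [hval _ h0]
      exact pow_le_pow_right₀ hx1.le (le_wd N m1 h0)
  · obtain ⟨j, hj, hj2⟩ := Finset.exists_mem_eq_sup N.support
      (Polynomial.support_nonempty.2 hN0) fun j => (N.coeff j).totalDegree + j
    have h0 : N.coeff j ≠ 0 := Polynomial.mem_support_iff.1 hj
    have h3 : v x ^ wd N = v (algebraMap (A K k) M (N.coeff j)) * v x ^ j := by
      rw [hval _ h0]
      congr 1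
    rw [h3, ← hcoef]
    exact mul_le_mul_right (g1 j) _

end Pool.Agent.QN
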