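import Pool.Agent.QN.NPol

/-! # Comparison: fewer poles give a relation of smaller degree -/

namespace Pool.Agent.QN

open MvPolynomial Pool.Agent.QS

/-- the weighted bound for the coefficients of a product of linear factors -/
theorem coeff_prod_le {ι M Γ : Type} [Field M] [LinearOrderedCommGroupWithZero Γ]
    (v : Valuation M Γ) (ξ : Γ) (c : ι → M) (s : Finset ι) (j : ℕ) :
    v ((∏ i ∈ s, (Polynomial.X - Polynomial.C (c i))).coeff j) * ξ ^ j ≤
      ∏ i ∈ s, max ξ (v (c i)) := by
  classical
  induction s using Finset.induction_on generalizing j with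
  | empty =>
    simp only [Finset.prod_empty]
    rw [Polynomial.coeff_one]
    split_ifs with h
    · subst h
      simp
    · simp
  | insert a s ha ih =>
    rw [Finset.prod_insert ha, Finset.prod_insert ha]
    set P := ∏ i ∈ s, (Polynomial.X - Polynomial.C (c i)) with hP
    set B := ∏ i ∈ s, max ξ (v (c i)) with hB
    have hc : v (c a) * v (P.coeff j) * ξ ^ j ≤ max ξ (v (c a)) * B := by
      rw [mul_assoc]
      exact mul_le_mul' (le_max_right _ _) (ih j)
    rcases j with _ | j
    · have h1 : ((Polynomial.X - Polynomial.C (c a)) * P).coeff 0 = -(c a * P.coeff 0) := by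
        rw [sub_mul, Polynomial.coeff_sub, Polynomial.coeff_C_mul, Polynomial.coeff_X_mul_zero,
          zero_sub]
      rw [h1, Valuation.map_neg, map_mul]
      exact hc
    · have h1 : ((Polynomial.X - Polynomial.C (c a)) * P).coeff (j + 1) =
          P.coeff j - c a * P.coeff (j + 1) := by
        rw [sub_mul, Polynomial.coeff_sub, Polynomial.coeff_C_mul, Polynomial.coeff_X_mul]
      rw [h1]
      have h2 : v (P.coeff j) * ξ ^ (j + 1) ≤ max ξ (v (c a)) * B := by
        rw [pow_succ, ← mul_assoc, mul_comm]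
        exact mul_le_mul' (le_max_left _ _) (ih j)
      rcases le_total (v (P.coeff j)) (v (c a * P.coeff (j + 1))) with h3 | h3
      · refine le_trans (mul_le_mul' ((v.map_sub _ _).trans (max_le h3 le_rfl)) le_rfl) ?_
        rw [map_mul]
        exact hc
      · exact le_trans (mul_le_mul' ((v.map_sub _ _).trans (max_le le_rfl h3)) le_rfl) h2

variable {K : Type} [Field K] [CharZero K] {k : ℕ} {M : Type} [Field M] [Algebra (A K k) M]
  [Algebra (Q K k) M] [IsScalarTower (A K k) (Q K k) M] [FiniteDimensional (Q K k) M]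
  [IsGalois (Q K k) M]

/-- an element of the fraction field without poles is a polynomial -/
theorem mem_of_vals (f : Q K k) (hf : ∀ p : A K k, Prime p →
    ∃ (Γ : Type) (_ : LinearOrderedCommGroupWithZero Γ) (v : Valuation M Γ), IsPV p v ∧
      v (algebraMap (Q K k) M f) ≤ 1) : ∃ a : A K k, algebraMap (A K k) (Q K k) a = f := by
  by_contra hcon
  have hden : ¬ IsUnit ((IsFractionRing.den (A K k) f : A K k)) := by
    intro hu
    obtain ⟨a, ha⟩ := IsFractionRing.isInteger_of_isUnit_den hu
    exact hcon ⟨a, ha⟩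
  have hden0 : (IsFractionRing.den (A K k) f : A K k) ≠ 0 :=
    nonZeroDivisors.ne_zero (IsFractionRing.den (A K k) f).2
  obtain ⟨p, hp, hpd⟩ := WfDvdMonoid.exists_irreducible_factor hden hden0
  have hpp : Prime p := UniqueFactorizationMonoid.irreducible_iff_prime.1 hp
  have hpn : ¬ p ∣ IsFractionRing.num (A K k) f := fun h =>
    hp.not_isUnit (IsFractionRing.num_den_reduced (A K k) f h hpd)
  obtain ⟨Γ, _, v, hv, hle⟩ := hf p hpp
  have h1 : v (algebraMap (A K k) M (IsFractionRing.den (A K k) f : A K k)) < 1 :=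
    (hv.lt_one _).2 hpd
  have h2 : v (algebraMap (A K k) M (IsFractionRing.num (A K k) f)) = 1 :=
    le_antisymm (hv.le_one _) (not_lt.1 fun h => hpn ((hv.lt_one _).1 h))
  have h3 : algebraMap (Q K k) M f *
      algebraMap (A K k) M (IsFractionRing.den (A K k) f : A K k) =
        algebraMap (A K k) M (IsFractionRing.num (A K k) f) := by
    rw [IsScalarTower.algebraMap_apply (A K k) (Q K k) M,
      IsScalarTower.algebraMap_apply (A K k) (Q K k) M, ← map_mul]
    congr 1
    exact IsFractionRing.num_mul_den_eq_num_iff_eq.2 rfl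
  have h4 := congrArg v h3
  rw [map_mul, h2] at h4
  have h5 : v (algebraMap (Q K k) M f) *
      v (algebraMap (A K k) M (IsFractionRing.den (A K k) f : A K k)) < 1 :=
    mul_lt_one_of_nonneg_of_lt_one_right hle zero_le h1
  rw [h4] at h5
  exact lt_irrefl _ h5

theorem ExM_of_le {H : Subgroup (M ≃ₐ[Q K k] M)} {z : M} {α : A K k} {N : Polynomial (A K k)}
    (h : IsN H z α N) (y : M) (hy : ∀ g ∈ H, g y = y) (hz : ∀ g ∈ H, g z = z)
    (hp : ∀ p : A K k, Prime p →
      ∃ (Γ : Type) (_ : LinearOrderedCommGroupWithZero Γ) (v : Valuation M Γ), IsPV p v ∧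
        ∀ σ : M ≃ₐ[Q K k] M, v (σ y) ≤ max 1 (v (σ z)))
    (j0 : Fin k) {Γ : Type} [LinearOrderedCommGroupWithZero Γ] (v : Valuation M Γ) (hv : IsIV K j0 v)
    (hi : ∀ σ : M ≃ₐ[Q K k] M, v (σ y) ≤ max (v (algebraMap (A K k) M (X j0))) (v (σ z))) :
    ExM (K := K) (k := k) (wd N) y := by
  classical
  obtain ⟨nQ, hmon, hnQ⟩ := cj_poly H y hy
  have hcoef : ∀ j, algebraMap (Q K k) M (algebraMap (A K k) (Q K k) α * nQ.coeff j) =
      algebraMap (A K k) M α * (∏ q : Cs H, (Polynomial.X - Polynomial.C (cj H y q))).coeff j := by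
    intro j
    rw [map_mul, ← IsScalarTower.algebraMap_apply, ← hnQ, Polynomial.coeff_map]
  have hmem : ∀ j, ∃ a : A K k, algebraMap (A K k) (Q K k) a =
      algebraMap (A K k) (Q K k) α * nQ.coeff j := by
    intro j
    refine mem_of_vals (M := M) _ fun p hpp => ?_
    obtain ⟨Γ', _, w, hw, hle⟩ := hp p hpp
    refine ⟨Γ', _, w, hw, ?_⟩
    rw [hcoef, map_mul, ← h.prime hpp hw]
    refine mul_le_mul' le_rfl ?_
    have h1 := coeff_prod_le w 1 (cj H y) Finset.univ j
    rw [one_pow, mul_one] at h1
    refine h1.trans (Finset.prod_le_prod' fun q _ => max_le (le_max_left _ _) ?_)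
    exact hle _
  choose a ha using hmem
  let R : Polynomial (A K k) := ∑ j ∈ Finset.range (nQ.natDegree + 1), Polynomial.monomial j (a j)
  have hRc : ∀ j, algebraMap (A K k) (Q K k) (R.coeff j) =
      algebraMap (A K k) (Q K k) α * nQ.coeff j := by
    intro j
    simp only [R, Polynomial.finset_sum_coeff, Polynomial.coeff_monomial]
    rw [Finset.sum_ite_eq' (Finset.range (nQ.natDegree + 1)) j a]
    split_ifs with hj
    · exact ha j
    · rw [map_zero, Polynomial.coeff_eq_zero_of_natDegree_lt
        (by rw [Finset.mem_range] at hj; omega), mul_zero]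
  have hRM : ∀ j, algebraMap (A K k) M (R.coeff j) =
      algebraMap (A K k) M α * (∏ q : Cs H, (Polynomial.X - Polynomial.C (cj H y q))).coeff j := by
    intro j
    rw [IsScalarTower.algebraMap_apply (A K k) (Q K k) M, hRc, hcoef]
  have hinj : Function.Injective (algebraMap (A K k) (Q K k)) := IsFractionRing.injective _ _
  refine ⟨R, ?_, ?_, ?_⟩
  · intro h0
    have h1 := hRc nQ.natDegree
    rw [h0, Polynomial.coeff_zero, map_zero, Polynomial.coeff_natDegree, hmon.leadingCoeff,
      mul_one] at h1
    exact h.ne (hinj (h1.symm.trans (map_zero _).symm))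
  · unfold wd
    refine Finset.sup_le fun j hj => ?_
    have hne : R.coeff j ≠ 0 := Polynomial.mem_support_iff.1 hj
    have h1 : v (algebraMap (A K k) M (R.coeff j)) *
        v (algebraMap (A K k) M (X j0)) ^ j ≤ v (algebraMap (A K k) M (X j0)) ^ wd N := by
      rw [hRM, map_mul, mul_assoc, ← h.inf hv]
      refine mul_le_mul' le_rfl ?_
      refine (coeff_prod_le v _ (cj H y) Finset.univ j).trans ?_
      exact Finset.prod_le_prod' fun q _ => max_le (le_max_left _ _) (hi _)
    rw [hv.val _ hne, ← pow_add] at h1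
    exact (pow_le_pow_iff_right₀ hv.one_lt).1 h1
  · have h1 : Polynomial.aeval y R = Polynomial.eval y (R.map (algebraMap (A K k) M)) := by
      rw [Polynomial.eval_map_algebraMap]
    have h2 : R.map (algebraMap (A K k) M) = Polynomial.C (algebraMap (A K k) M α) *
        ∏ q : Cs H, (Polynomial.X - Polynomial.C (cj H y q)) := by
      ext j
      rw [Polynomial.coeff_map, hRM, Polynomial.coeff_C_mul]
    rw [h1, h2, Polynomial.eval_mul, Polynomial.eval_prod]
    refine mul_eq_zero_of_right _ (Finset.prod_eq_zero (Finset.mem_univ (Cs.mk H 1)) ?_)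
    rw [cj_mk H y hy 1]
    simp

end Pool.Agent.QN
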