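import Pool.Agent.QN.TransN
import Pool.Agent.QS.Fin

/-! # The final statement -/

namespace Pool.Agent.QN

open MvPolynomial Module Pool.Agent.QT Pool.Agent.QS

private theorem fn_lift {σ : Type} (P : MvPolynomial σ ℂ) (h : ∀ m, IsAlgebraic ℚ (P.coeff m)) :
    ∃ Q : MvPolynomial σ (algebraicClosure ℚ ℂ),
      MvPolynomial.map (algebraMap (algebraicClosure ℚ ℂ) ℂ) Q = P := by
  have : P ∈ Set.range (MvPolynomial.map (σ := σ) (algebraMap (algebraicClosure ℚ ℂ) ℂ)) := by
    rw [mem_range_map_iff_coeffs_subset]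
    intro c hc
    obtain ⟨e, -, rfl⟩ := mem_coeffs_iff.1 (Finset.mem_coe.1 hc)
    exact ⟨⟨P.coeff e, mem_algebraicClosure_iff.2 (h e)⟩, rfl⟩
  exact this

private theorem fn_degree {σ : Type} (Q : MvPolynomial σ (algebraicClosure ℚ ℂ)) :
    (MvPolynomial.map (algebraMap (algebraicClosure ℚ ℂ) ℂ) Q).totalDegree = Q.totalDegree := by
  rw [totalDegree, totalDegree, support_map_of_injective Q (FaithfulSMul.algebraMap_injective _ _)]

private theorem fn_coef {σ : Type} (Q : MvPolynomial σ (algebraicClosure ℚ ℂ)) (e : σ →₀ ℕ) :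
    IsAlgebraic ℚ ((MvPolynomial.map (algebraMap (algebraicClosure ℚ ℂ) ℂ) Q).coeff e) := by
  rw [coeff_map]
  exact mem_algebraicClosure_iff.1 (Q.coeff e).2

private theorem fn_eval {σ : Type} (Q : MvPolynomial σ (algebraicClosure ℚ ℂ)) (y : σ → ℂ) :
    eval y (MvPolynomial.map (algebraMap (algebraicClosure ℚ ℂ) ℂ) Q) = aeval y Q := by
  rw [eval_map, aeval_def]

/-- the exchange of the index sets -/
private def fn (k : ℕ) : Fin (k + 1) → Fin k ⊕ Fin 1 := Fin.cons (Sum.inr 0) Sum.inl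

private theorem fn_inj (k : ℕ) : Function.Injective (fn k) := by
  intro i j
  refine Fin.cases ?_ (fun i => ?_) i <;> refine Fin.cases ?_ (fun j => ?_) j
  · intro _; rfl
  · intro h; simp [fn] at h
  · intro h; simp [fn] at h
  · intro h
    simp only [fn, Fin.cons_succ] at h
    rw [Sum.inl_injective h]

/-- the dimension bound, `x` without relations of degree at most `d` -/
private theorem fn_dim_lt (F : Subfield ℂ) {k d : ℕ} (hd : 0 < d) (x : Fin k → ℂ)
    (hx : ∀ P : MvPolynomial (Fin k) ℂ, (∀ m, IsAlgebraic ℚ (P.coeff m)) →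
      P.totalDegree ≤ d → eval x P = 0 → P = 0) (V : Submodule F ℂ)
    (hV : QR.Free (algebraicClosure ℚ ℂ) V) (U : Submodule F ℂ) [FiniteDimensional F U]
    (hUV : U ≤ V) (hU : ∀ y ∈ U, BadC d x y) : finrank F U < (k + d).choose d := by
  classical
  by_contra hcon
  push Not at hcon
  set N := (k + d).choose d with hN
  -- `N` independent elements
  let b := Module.finBasis F U
  let v : Fin N → ℂ := fun j => (b (Fin.castLE hcon j) : ℂ)
  have hvU : ∀ j, v j ∈ U := fun j => (b (Fin.castLE hcon j)).2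
  have hvi : LinearIndependent F v := by
    have h1 : LinearIndependent F (fun i => (b i : ℂ)) :=
      b.linearIndependent.map' U.subtype (Submodule.ker_subtype U)
    exact h1.comp _ (Fin.castLE_injective hcon)
  obtain ⟨C, hC⟩ := tuples_count k 1 N d one_pos hd x (fun P hPa hPd hP => hx P hPa hPd hP)
    (fun _ => 0) (fun _ => v)
    (fun _ c c0 hc hc0 h => by
      have h1 := hV (Fin N) v (fun j => hUV (hvU j)) hvi ⟨c0, mem_algebraicClosure_iff.2 hc0⟩
        (fun j => ⟨c j, mem_algebraicClosure_iff.2 (hc j)⟩) h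
      exact ⟨congrArg Subtype.val h1.1, fun j => congrArg Subtype.val (h1.2 j)⟩)
  -- all points of the box are bad
  have hbad : ∀ M : Fin 1 → Fin N → ℤ, ∃ P : MvPolynomial (Fin k ⊕ Fin 1) ℂ, P ≠ 0 ∧
      AlgCoef P ∧ P.totalDegree ≤ d ∧
      eval (Sum.elim x fun i => (0 : ℂ) + ∑ j, (M i j : ℂ) * v j) P = 0 := by
    intro M
    set y : ℂ := ∑ j, (M 0 j : ℂ) * v j with hy
    have hyU : y ∈ U := by
      rw [hy]
      refine U.sum_mem fun j _ => ?_
      have : (M 0 j : ℂ) * v j = (M 0 j : F) • v j := rfl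
      rw [this]
      exact U.smul_mem _ (hvU j)
    obtain ⟨P, h0, h1, h2, h3⟩ := hU y hyU
    refine ⟨rename (fn k) P, ?_, ?_, (totalDegree_rename_le _ _).trans h1, ?_⟩
    · intro h
      exact h0 (rename_injective _ (fn_inj k) (by rw [h, map_zero]))
    · intro m
      by_cases hm : ∃ u : Fin (k + 1) →₀ ℕ, u.mapDomain (fn k) = m
      · obtain ⟨u, rfl⟩ := hm
        rw [coeff_rename_mapDomain _ (fn_inj k)]
        exact h2 u
      · rw [coeff_rename_eq_zero _ _ _ fun u hu => absurd ⟨u, hu⟩ hm]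
        exact isAlgebraic_zero
    · have e : (Sum.elim x fun i => (0 : ℂ) + ∑ j, (M i j : ℂ) * v j) ∘ fn k =
          (Fin.cons y x : Fin (k + 1) → ℂ) := by
        funext i
        refine Fin.cases ?_ (fun i => ?_) i
        · simp only [Function.comp_apply, fn, Fin.cons_zero, Sum.elim_inr, zero_add, hy]
        · simp only [Function.comp_apply, fn, Fin.cons_succ, Sum.elim_inl]
      rw [eval_rename, e, h3]
  have h1 := hC C
  have h2 : {M : Fin 1 → Fin N → ℤ | (∀ i j, |M i j| ≤ (C : ℤ)) ∧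
      ∃ P : MvPolynomial (Fin k ⊕ Fin 1) ℂ, P ≠ 0 ∧ AlgCoef P ∧ P.totalDegree ≤ d ∧
        eval (Sum.elim x fun i => (0 : ℂ) + ∑ j, (M i j : ℂ) * v j) P = 0} =
      ((Fintype.piFinset fun _ : Fin 1 => Fintype.piFinset fun _ : Fin N =>
        Finset.Icc (-(C : ℤ)) C : Finset (Fin 1 → Fin N → ℤ)) : Set (Fin 1 → Fin N → ℤ)) := by
    ext M
    rw [Finset.mem_coe, Fintype.mem_piFinset]
    constructor
    · rintro ⟨h, -⟩ i
      rw [Fintype.mem_piFinset]
      intro j
      rw [Finset.mem_Icc]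
      exact abs_le.1 (h i j)
    · intro h
      refine ⟨fun i j => ?_, hbad M⟩
      have h' := Fintype.mem_piFinset.1 (h i) j
      rw [Finset.mem_Icc] at h'
      exact abs_le.2 h'
  rw [h2, Set.ncard_coe_finset, Fintype.card_piFinset] at h1
  simp only [Fintype.card_piFinset, Int.card_Icc, Finset.prod_const, Finset.card_univ,
    Fintype.card_fin, pow_one, Nat.sub_self, zero_mul, zero_add, add_zero] at h1
  have h3 : ((C : ℤ) + 1 - -(C : ℤ)).toNat = 2 * C + 1 := by omega
  rw [h3, ← hN] at h1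
  have hN1 : 0 < N := Nat.choose_pos (Nat.le_add_left _ _)
  obtain ⟨N', hN'⟩ : ∃ N', N = N' + 1 := ⟨N - 1, by omega⟩
  rw [hN', Nat.add_sub_cancel, pow_succ, mul_comm] at h1
  have h4 := Nat.le_of_mul_le_mul_right h1 (Nat.pow_pos (by omega))
  omega

theorem main (F : Subfield ℂ) (hF : ∀ c ∈ F, IsAlgebraic ℚ c) {k d r : ℕ} (hk : 0 < k)
    (hd : 0 < d) (hr : 0 < r) (x : Fin k → ℂ)
    (hx : ∀ P : MvPolynomial (Fin k) ℂ, (∀ m, IsAlgebraic ℚ (P.coeff m)) →
      P.totalDegree ≤ d ^ (r + 1) → eval x P = 0 → P = 0) (t : Fin r → ℂ)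
    (hV : QR.Free (algebraicClosure ℚ ℂ) (Submodule.span F (Set.range t))) :
    ∃ (n : ℕ) (U : Fin n → Submodule F ℂ), n ≤ (r + d - 2).choose (d - 1) ∧
      ((∃ j, x j ∈ Submodule.span F (Set.range t)) → 2 ≤ r →
        n ≤ (r + d - 3).choose (d - 1)) ∧
      (∀ i, U i ≤ Submodule.span F (Set.range t) ∧ finrank F (U i) < (k + d).choose d) ∧
      {y ∈ Submodule.span F (Set.range t) | BadC d x y} = ⋃ i, (U i : Set ℂ) := by
  have : IsAlgClosed (algebraicClosure ℚ ℂ) := (algebraicClosure.isAlgClosure ℚ ℂ).isAlgClosed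
  have hfin : FiniteDimensional F (Submodule.span F (Set.range t)) :=
    FiniteDimensional.span_of_finite F (Set.finite_range t)
  have hfr : finrank F (Submodule.span F (Set.range t)) ≤ r := by
    have := finrank_range_le_card (R := F) t
    rwa [Fintype.card_fin] at this
  have hinj : Function.Injective (algebraMap (algebraicClosure ℚ ℂ) ℂ) :=
    FaithfulSMul.algebraMap_injective _ _
  have hxG : Good (algebraicClosure ℚ ℂ) (d ^ (r + 1)) x := by
    intro Q hQ h0
    have h1 := hx (MvPolynomial.map (algebraMap (algebraicClosure ℚ ℂ) ℂ) Q) (fn_coef Q)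
      (by rwa [fn_degree]) (by rwa [fn_eval])
    exact MvPolynomial.map_injective _ hinj (by rw [h1, map_zero])
  have hxd : ∀ P : MvPolynomial (Fin k) ℂ, (∀ m, IsAlgebraic ℚ (P.coeff m)) →
      P.totalDegree ≤ d → eval x P = 0 → P = 0 := fun P h1 h2 h3 =>
    hx P h1 (h2.trans (Nat.le_self_pow (by omega) d)) h3
  obtain ⟨n, U, hn, hn', hUV, hU⟩ := union_subspaces2 (K := algebraicClosure ℚ ℂ) (L := ℂ) (F := F)
    (fun c => ⟨⟨(c : ℂ), mem_algebraicClosure_iff.2 (hF c c.2)⟩, rfl⟩) hk hd x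
    hxG (Submodule.span F (Set.range t)) hfr
  refine ⟨n, U, ?_, ?_, fun i => ⟨hUV i, ?_⟩, ?_⟩
  · rw [Nat.multichoose_eq] at hn
    have e : r + (d - 1) - 1 = r + d - 2 := by omega
    rw [e] at hn
    have h1 : 1 ≤ (r + d - 2).choose (d - 1) := Nat.choose_pos (by omega)
    rwa [max_eq_right h1] at hn
  · intro hj h2
    have h3 := hn' hj
    rw [Nat.multichoose_eq] at h3
    have e : r - 1 + (d - 1) - 1 = r + d - 3 := by omega
    rw [e] at h3
    have h1 : 1 ≤ (r + d - 3).choose (d - 1) := Nat.choose_pos (by omega)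
    rwa [max_eq_right h1] at h3
  · have hfi : FiniteDimensional F (U i) := Submodule.finiteDimensional_of_le (hUV i)
    exact fn_dim_lt F hd x hxd _ hV (U i) (hUV i) fun y hy =>
      (badC_iff d x y).2 ((hU y (hUV i hy)).2 ⟨i, hy⟩)
  · ext y
    rw [Set.mem_iUnion]
    constructor
    · rintro ⟨hy, hb⟩
      exact (hU y hy).1 ((badC_iff d x y).1 hb)
    · rintro ⟨i, hi⟩
      exact ⟨hUV i hi, (badC_iff d x y).2 ((hU y (hUV i hi)).2 ⟨i, hi⟩)⟩

end Pool.Agent.QN
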