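import Pool.Agent.QN.Arch
import Pool.Agent.QN.Cj

/-! # Weak approximation -/

namespace Pool.Agent.QN

variable {Q M Γ K : Type} [Field Q] [Field M] [Algebra Q M] [LinearOrderedCommGroupWithZero Γ]
  [Field K] [Infinite K] [Algebra K Q] [Algebra K M] [IsScalarTower K Q M]

/-- `σ` and `τ` give the same valuation on the elements fixed by `H` -/
def SameV (H : Subgroup (M ≃ₐ[Q] M)) (v : Valuation M Γ) (σ τ : M ≃ₐ[Q] M) : Prop :=
  ∀ z : M, (∀ h ∈ H, h z = z) → v (σ z) = v (τ z)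

/-- `v` trivial on `K`: an element with value `1` at `σ` and `< 1` at `τ`, `≤ 1` everywhere:
`1 / (c + z')`, `z'` from `Disc.sep`, `c ∈ K` outside a finite set. -/
theorem exists_small [FiniteDimensional Q M] {v : Valuation M Γ} {π : Γ} (h : Disc Q v π)
    (hK : ∀ c : K, c ≠ 0 → v (algebraMap K M c) = 1) (H : Subgroup (M ≃ₐ[Q] M))
    (σ τ : M ≃ₐ[Q] M) (hne : ¬ SameV H v σ τ) :
    ∃ e : M, (∀ g ∈ H, g e = e) ∧ v (σ e) = 1 ∧ v (τ e) < 1 ∧ ∀ ρ : M ≃ₐ[Q] M, v (ρ e) ≤ 1 := by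
  classical
  have hKle : ∀ c : K, v (algebraMap K M c) ≤ 1 := by
    intro c
    by_cases hc : c = 0
    · rw [hc, map_zero, map_zero]
      exact zero_le_one
    · exact (hK c hc).le
  have hfix : ∀ (ρ : M ≃ₐ[Q] M) (c : K), ρ (algebraMap K M c) = algebraMap K M c := by
    intro ρ c
    rw [IsScalarTower.algebraMap_apply K Q M c]
    exact ρ.commutes _
  unfold SameV at hne
  push Not at hne
  obtain ⟨z, hz, hzne⟩ := hne
  obtain ⟨m, q, h1, h2⟩ := h.sep σ τ z hzne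
  set z' : M := z ^ m * algebraMap Q M q with hz'
  have hz'fix : ∀ g ∈ H, g z' = z' := by
    intro g hg
    rw [hz', map_mul, map_zpow₀, hz g hg, AlgEquiv.commutes]
  -- the bad constants
  have hbad : ∀ ρ : M ≃ₐ[Q] M, {c : K | v (algebraMap K M c + ρ z') < 1}.Finite := by
    intro ρ
    apply Set.Subsingleton.finite
    intro c hc c' hc'
    by_contra hcc
    have h3 : v (algebraMap K M (c - c')) = 1 := hK _ (sub_ne_zero.2 hcc)
    have h4 : algebraMap K M (c - c') = (algebraMap K M c + ρ z') - (algebraMap K M c' + ρ z') := by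
      rw [map_sub]
      ring
    rw [h4] at h3
    have h5 := v.map_sub (algebraMap K M c + ρ z') (algebraMap K M c' + ρ z')
    rw [h3] at h5
    exact absurd h5 (not_le.2 (max_lt hc hc'))
  have hfin : (⋃ ρ : M ≃ₐ[Q] M, {c : K | v (algebraMap K M c + ρ z') < 1}).Finite :=
    Set.finite_iUnion hbad
  obtain ⟨c, hc⟩ := hfin.infinite_compl.nonempty
  have hc1 : ∀ ρ : M ≃ₐ[Q] M, 1 ≤ v (algebraMap K M c + ρ z') := by
    intro ρ
    by_contra hlt
    exact hc (Set.mem_iUnion.2 ⟨ρ, not_le.1 hlt⟩)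
  have hρ : ∀ ρ : M ≃ₐ[Q] M, ρ ((algebraMap K M c + z')⁻¹) = (algebraMap K M c + ρ z')⁻¹ := by
    intro ρ
    rw [map_inv₀, map_add, hfix]
  refine ⟨(algebraMap K M c + z')⁻¹, ?_, ?_, ?_, ?_⟩
  · intro g hg
    rw [hρ, hz'fix g hg]
  · rw [hρ, map_inv₀, inv_eq_one]
    apply le_antisymm _ (hc1 σ)
    exact (v.map_add _ _).trans (max_le (hKle c) h1)
  · rw [hρ, map_inv₀]
    have h6 : v (algebraMap K M c + τ z') = v (τ z') :=
      v.map_add_eq_of_lt_right ((hKle c).trans_lt h2)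
    rw [h6]
    exact inv_lt_one_of_one_lt₀ h2
  · intro ρ
    rw [hρ, map_inv₀]
    exact inv_le_one_of_one_le₀ (hc1 ρ)

/-- the pole of `y` at one valuation alone -/
theorem exists_single_pole [FiniteDimensional Q M] {v : Valuation M Γ} {π : Γ} (h : Disc Q v π)
    (hK : ∀ c : K, c ≠ 0 → v (algebraMap K M c) = 1) (H : Subgroup (M ≃ₐ[Q] M))
    (y : M) (hy : ∀ g ∈ H, g y = y) (σ : M ≃ₐ[Q] M) :
    ∃ b : M, (∀ g ∈ H, g b = b) ∧ (∀ τ, SameV H v σ τ → v (τ b) = v (τ y)) ∧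
      ∀ τ, ¬ SameV H v σ τ → v (τ b) ≤ 1 := by
  classical
  have hex : ∀ τ : M ≃ₐ[Q] M, ∃ e : M, (∀ g ∈ H, g e = e) ∧ v (σ e) = 1 ∧
      (∀ ρ : M ≃ₐ[Q] M, v (ρ e) ≤ 1) ∧ (¬ SameV H v σ τ → v (τ y) * v (τ e) ≤ 1) := by
    intro τ
    by_cases hs : SameV H v σ τ
    · exact ⟨1, fun g _ => map_one g, by rw [map_one, map_one], fun ρ => by rw [map_one, map_one],
        fun hn => absurd hs hn⟩
    · obtain ⟨e, he1, he2, he3, he4⟩ := exists_small h hK H σ τ hs
      obtain ⟨m, hm⟩ := h.pow_le (τ e) he3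
      obtain ⟨N, hN⟩ := h.mul_pow_le (τ y)
      refine ⟨e ^ (m * N), ?_, ?_, ?_, ?_⟩
      · intro g hg
        rw [map_pow, he1 g hg]
      · rw [map_pow, map_pow, he2, one_pow]
      · intro ρ
        rw [map_pow, map_pow]
        exact pow_le_one₀ zero_le (he4 ρ)
      · intro _
        rw [map_pow, map_pow, pow_mul]
        exact (mul_le_mul_right (pow_le_pow_left₀ zero_le hm N) (v (τ y))).trans hN
  choose e he1 he2 he3 he4 using hex
  have : Fintype (M ≃ₐ[Q] M) := Fintype.ofFinite _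
  refine ⟨y * ∏ τ : M ≃ₐ[Q] M, e τ, ?_, ?_, ?_⟩
  · intro g hg
    rw [map_mul, hy g hg, map_prod]
    congr 1
    exact Finset.prod_congr rfl fun τ _ => he1 τ g hg
  · intro τ hτ
    rw [map_mul, map_mul, map_prod, map_prod]
    rw [Finset.prod_eq_one, mul_one]
    intro ρ _
    rw [← hτ (e ρ) (he1 ρ), he2]
  · intro τ hτ
    rw [map_mul, map_mul, map_prod, map_prod, ← Finset.mul_prod_erase _ _ (Finset.mem_univ τ),
      ← mul_assoc]
    refine mul_le_one' (he4 τ hτ) ?_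
    exact Finset.prod_le_one' fun ρ _ => he3 ρ τ

end Pool.Agent.QN
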