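import Mathlib

/-! # The set-pair count with products of linear forms -/

namespace Pool.Agent.QN

namespace CntAux

/-- the monomial functions of degree `D` in the coordinates of a basis -/
noncomputable def mon {F V : Type} [Field F] [AddCommGroup V] [Module F V] {r : ℕ}
    (b : Module.Basis (Fin r) F V) (D : ℕ) (s : Sym (Fin r) D) (z : V) : F :=
  ((s : Multiset (Fin r)).map (fun i => b.repr z i)).prod

/-- a product of `D` linear forms is a combination of the monomials of degree `D` -/
theorem prod_mem {F V κ : Type} [Field F] [AddCommGroup V] [Module F V] [Fintype κ] {r : ℕ}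
    (b : Module.Basis (Fin r) F V) (D : ℕ) (hκ : Fintype.card κ = D) (f : κ → (V →ₗ[F] F)) :
    (fun z => ∏ t, f t z) ∈ Submodule.span F (Set.range (mon b D)) := by
  classical
  have h1 : ∀ t z, f t z = ∑ i, f t (b i) * b.repr z i := by
    intro t z
    conv_lhs => rw [← b.sum_repr z]
    rw [map_sum]
    refine Finset.sum_congr rfl fun i _ => ?_
    rw [map_smul, smul_eq_mul, mul_comm]
  have h2 : (fun z => ∏ t, f t z) = ∑ x : κ → Fin r, (∏ t, f t (b (x t))) •
      (mon b D ⟨Finset.univ.val.map x, by rw [Multiset.card_map, Finset.card_val,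
        Finset.card_univ, hκ]⟩) := by
    funext z
    rw [Finset.sum_apply]
    have h3 : ∏ t, f t z = ∏ t, ∑ i, f t (b i) * b.repr z i :=
      Finset.prod_congr rfl fun t _ => h1 t z
    rw [h3, Finset.prod_univ_sum]
    rw [Fintype.piFinset_univ]
    refine Finset.sum_congr rfl fun x _ => ?_
    rw [Finset.prod_mul_distrib, Pi.smul_apply, smul_eq_mul]
    congr 1
    change _ = ((Multiset.map x Finset.univ.val).map (fun i => b.repr z i)).prod
    rw [Multiset.map_map]
    rfl
  rw [h2]
  exact Submodule.sum_mem _ fun x _ => Submodule.smul_mem _ _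
    (Submodule.subset_span ⟨_, rfl⟩)

end CntAux

/-- `y i` non zero vectors of `V`, for each `i` at most `D` linear forms that do not vanish at
`y i`; for `i ≠ j` with `rk j ≤ rk i` one of the forms of `i` vanishes at `y j`. -/
theorem count_forms {F E : Type} [Field F] [Infinite F] [AddCommGroup E] [Module F E]
    (V : Submodule F E) [FiniteDimensional F V] (D n : ℕ) (y : Fin n → E) (hy : ∀ i, y i ∈ V)
    (hy0 : ∀ i, y i ≠ 0) (rk : Fin n → ℕ) (ι : Fin n → Type) [∀ i, Fintype (ι i)]
    (hm : ∀ i, Fintype.card (ι i) ≤ D) (L : ∀ i, ι i → (E →ₗ[F] F))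
    (h1 : ∀ i l, L i l (y i) ≠ 0) (h2 : ∀ i j, i ≠ j → rk j ≤ rk i → ∃ l, L i l (y j) = 0) :
    n ≤ Nat.multichoose (Module.finrank F V) D := by
  classical
  obtain ⟨lam, hlam⟩ := Module.exists_dual_forall_apply_ne_zero (K := F) y hy0
  set r := Module.finrank F V with hr
  let b : Module.Basis (Fin r) F V := Module.finBasis F V
  let g : Fin n → V → F := fun i z =>
    ∏ t : ι i ⊕ Fin (D - Fintype.card (ι i)),
      (Sum.elim (fun l => (L i l) ∘ₗ V.subtype) (fun _ => lam ∘ₗ V.subtype) t : V →ₗ[F] F) z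
  have hg : ∀ i, g i ∈ Submodule.span F (Set.range (CntAux.mon b D)) := by
    intro i
    refine CntAux.prod_mem b D ?_ _
    rw [Fintype.card_sum, Fintype.card_fin]
    have := hm i
    omega
  have hgz : ∀ i z, g i z = (∏ l, L i l z) * (lam z) ^ (D - Fintype.card (ι i)) := by
    intro i z
    simp only [g]
    rw [Fintype.prod_sum_type]
    simp
  have hg1 : ∀ i, g i ⟨y i, hy i⟩ ≠ 0 := by
    intro i
    rw [hgz]
    exact mul_ne_zero (Finset.prod_ne_zero_iff.mpr fun l _ => h1 i l) (pow_ne_zero _ (hlam i))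
  have hg2 : ∀ i j, i ≠ j → rk j ≤ rk i → g i ⟨y j, hy j⟩ = 0 := by
    intro i j hij hrk
    obtain ⟨l, hl⟩ := h2 i j hij hrk
    rw [hgz, Finset.prod_eq_zero (Finset.mem_univ l) hl, zero_mul]
  have hli : LinearIndependent F g := by
    rw [Fintype.linearIndependent_iff]
    intro c hc
    by_contra hne
    push Not at hne
    obtain ⟨j0, hj0⟩ := hne
    obtain ⟨j, hj, hmin⟩ := Finset.exists_min_image (Finset.univ.filter fun i => c i ≠ 0) rk
      ⟨j0, Finset.mem_filter.mpr ⟨Finset.mem_univ _, hj0⟩⟩
    have hcj : c j ≠ 0 := (Finset.mem_filter.mp hj).2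
    have hev := congrFun hc ⟨y j, hy j⟩
    rw [Finset.sum_apply, Finset.sum_eq_single j] at hev
    · rw [Pi.smul_apply, smul_eq_mul] at hev
      exact (mul_ne_zero hcj (hg1 j)) hev
    · intro i _ hij
      rw [Pi.smul_apply, smul_eq_mul]
      by_cases hci : c i = 0
      · rw [hci, zero_mul]
      · rw [hg2 i j hij (hmin i (Finset.mem_filter.mpr ⟨Finset.mem_univ _, hci⟩)), mul_zero]
    · intro h
      exact absurd (Finset.mem_univ j) h
  let S := Submodule.span F (Set.range (CntAux.mon b D))
  have hSfin : Module.Finite F S := FiniteDimensional.span_of_finite F (Set.finite_range _)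
  let g' : Fin n → S := fun i => ⟨g i, hg i⟩
  have hli' : LinearIndependent F g' := LinearIndependent.of_comp S.subtype hli
  have hle := hli'.fintype_card_le_finrank
  rw [Fintype.card_fin] at hle
  refine hle.trans ((finrank_range_le_card (CntAux.mon b D)).trans ?_)
  rw [Sym.card_sym_eq_multichoose, Fintype.card_fin]

/-- the same with one more vector `x` of `V` at which all forms vanish -/
theorem count_forms' {F E : Type} [Field F] [Infinite F] [AddCommGroup E] [Module F E]
    (V : Submodule F E) [FiniteDimensional F V] (D n : ℕ) (y : Fin n → E) (hy : ∀ i, y i ∈ V)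
    (x : E) (hx : x ∈ V) (hx0 : x ≠ 0) (hy0 : ∀ i, y i ∉ Submodule.span F {x})
    (rk : Fin n → ℕ) (ι : Fin n → Type) [∀ i, Fintype (ι i)]
    (hm : ∀ i, Fintype.card (ι i) ≤ D) (L : ∀ i, ι i → (E →ₗ[F] F))
    (h1 : ∀ i l, L i l (y i) ≠ 0) (h2 : ∀ i j, i ≠ j → rk j ≤ rk i → ∃ l, L i l (y j) = 0)
    (hLx : ∀ i l, L i l x = 0) :
    n ≤ Nat.multichoose (Module.finrank F V - 1) D := by
  classical
  let P := Submodule.span F {x}
  let V' : Submodule F (E ⧸ P) := V.map P.mkQ
  have hV' : FiniteDimensional F V' := inferInstance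
  have hL : ∀ i l, P ≤ LinearMap.ker (L i l) := by
    intro i l
    rw [Submodule.span_singleton_le_iff_mem, LinearMap.mem_ker]
    exact hLx i l
  have hfr : Module.finrank F V' = Module.finrank F V - 1 := by
    have h3 := LinearMap.finrank_range_add_finrank_ker (P.mkQ.domRestrict V)
    have h4 : LinearMap.range (P.mkQ.domRestrict V) = V' := by
      ext z
      simp [V', Submodule.mem_map]
    have h5 : LinearMap.ker (P.mkQ.domRestrict V) =
        Submodule.span F {(⟨x, hx⟩ : V)} := by
      ext z
      rw [LinearMap.mem_ker, LinearMap.domRestrict_apply, Submodule.mkQ_apply,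
        Submodule.Quotient.mk_eq_zero, Submodule.mem_span_singleton,
        Submodule.mem_span_singleton]
      constructor
      · rintro ⟨a, ha⟩
        exact ⟨a, Subtype.ext ha⟩
      · rintro ⟨a, ha⟩
        exact ⟨a, congrArg Subtype.val ha⟩
    have h6 : (⟨x, hx⟩ : V) ≠ 0 := fun h => hx0 (congrArg Subtype.val h)
    rw [h4, h5, finrank_span_singleton h6] at h3
    omega
  rw [← hfr]
  refine count_forms V' D n (fun i => P.mkQ (y i)) (fun i => Submodule.mem_map_of_mem (hy i))
    (fun i h => hy0 i ?_) rk ι hm (fun i l => P.liftQ (L i l) (hL i l)) (fun i l => ?_)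
    (fun i j hij hrk => ?_)
  · rwa [Submodule.mkQ_apply, Submodule.Quotient.mk_eq_zero] at h
  · rw [Submodule.mkQ_apply, Submodule.liftQ_apply]
    exact h1 i l
  · obtain ⟨l, hl⟩ := h2 i j hij hrk
    exact ⟨l, by rw [Submodule.mkQ_apply, Submodule.liftQ_apply]; exact hl⟩

end Pool.Agent.QN
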