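import Pool.Agent.QN.Cj

/-! # The Galois functionals -/

namespace Pool.Agent.QN

variable {Q M : Type} [Field Q] [Field M] [Algebra Q M]

/-- a linear functional that does not vanish at finitely many given non-zero vectors -/
theorem exists_functional {F V : Type} [Field F] [Infinite F] [AddCommGroup V] [Module F V]
    {ι : Type} [Finite ι] (v : ι → V) (hv : ∀ i, v i ≠ 0) : ∃ f : V →ₗ[F] F, ∀ i, f (v i) ≠ 0 :=
  Module.exists_dual_forall_apply_ne_zero v hv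

/-- extreme points: a conjugate of `y` whose average over the stabilizer of `y` is `y` is `y`.
(Take a `ℚ`-linear functional that is injective on the orbit of `y` and a maximum of it on the
orbit.) -/
theorem average_ne [CharZero Q] [FiniteDimensional Q M] [Fintype (M ≃ₐ[Q] M)] (y : M)
    (H : Subgroup (M ≃ₐ[Q] M)) [Fintype H] (τ : M ≃ₐ[Q] M)
    (h : ∑ g : H, (g : M ≃ₐ[Q] M) (τ y) = (Fintype.card H : M) * y) : τ y = y := by
  classical
  have : CharZero M := charZero_of_injective_algebraMap (algebraMap Q M).injective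
  obtain ⟨f, hf⟩ := exists_functional (F := ℚ) (V := M)
    (ι := {p : (M ≃ₐ[Q] M) × (M ≃ₐ[Q] M) // p.1 y - p.2 y ≠ 0})
    (fun p ↦ p.1.1 y - p.1.2 y) (fun p ↦ p.2)
  have hinj : ∀ a b : M ≃ₐ[Q] M, f (a y) = f (b y) → a y = b y := by
    intro a b hab
    by_contra hne
    refine hf ⟨(a, b), sub_ne_zero.2 hne⟩ ?_
    simp only [map_sub, hab, sub_self]
  obtain ⟨g, -, hg⟩ := Finset.exists_max_image (Finset.univ : Finset (M ≃ₐ[Q] M))
    (fun a ↦ f (a y)) ⟨1, Finset.mem_univ _⟩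
  have h1 : ∑ x : H, f (g ((x : M ≃ₐ[Q] M) (τ y))) = ∑ _x : H, f (g y) := by
    have h2 := congrArg (fun m ↦ f (g m)) h
    simp only [map_sum, map_mul, map_natCast] at h2
    rw [h2, ← nsmul_eq_mul, map_nsmul, Finset.sum_const, Finset.card_univ]
  have h3 : ∀ x ∈ (Finset.univ : Finset H), f (g ((x : M ≃ₐ[Q] M) (τ y))) = f (g y) := by
    refine (Finset.sum_eq_sum_iff_of_le fun x _ ↦ ?_).1 h1
    exact hg (g * ((x : M ≃ₐ[Q] M) * τ)) (Finset.mem_univ _)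
  have h4 := h3 1 (Finset.mem_univ _)
  have h5 : (g * τ) y = g y := hinj (g * τ) g h4
  exact g.injective h5

/-- `T z = (1/|H|) ∑_{h ∈ H} h z`, `ψ` a linear functional that does not vanish at the vectors
`T (σ⁻¹ y) - y`, `σ ∉ H`; the functionals are `z ↦ ψ (T (σ⁻¹ z) - T z)`, `σ` a representative. -/
theorem gal_functionals [CharZero Q] [FiniteDimensional Q M] {F : Type} [Field F] [CharZero F]
    [Algebra F Q] [Algebra F M] [IsScalarTower F Q M] (y : M) (H : Subgroup (M ≃ₐ[Q] M))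
    (hH : ∀ σ : M ≃ₐ[Q] M, σ ∈ H ↔ σ y = y) :
    ∃ ℓ : {q : Cs H // q ≠ Cs.mk H 1} → (M →ₗ[F] F), (∀ q, ℓ q y ≠ 0) ∧
      (∀ z : M, ∀ τ : M ≃ₐ[Q] M, τ z = z → τ ∉ H → ∃ q, ℓ q z = 0) ∧
      ∀ z : M, (∀ σ : M ≃ₐ[Q] M, σ z = z) → ∀ q, ℓ q z = 0 := by
  classical
  have : Fintype (M ≃ₐ[Q] M) := Fintype.ofFinite _
  have : Fintype H := Fintype.ofFinite _
  -- the sum over `H`
  let T : M →ₗ[F] M := ∑ h : H, ((h : M ≃ₐ[Q] M).restrictScalars F).toLinearMap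
  have hT : ∀ z, T z = ∑ h : H, (h : M ≃ₐ[Q] M) z := fun z ↦ by
    simp [T, LinearMap.sum_apply]
  -- representatives
  let r : Cs H → M ≃ₐ[Q] M := fun q ↦ Function.surjInv (Cs.mk_surjective H) q
  have hr : ∀ q, Cs.mk H (r q) = q := fun q ↦ Function.surjInv_eq (Cs.mk_surjective H) q
  let L : Cs H → (M →ₗ[F] M) := fun q ↦
    T ∘ₗ ((r q)⁻¹.restrictScalars F).toLinearMap - T
  have hL : ∀ q z, L q z = T ((r q)⁻¹ z) - T z := fun q z ↦ rfl
  have hTy : T y = (Fintype.card H : M) * y := by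
    rw [hT, Finset.sum_congr rfl fun (h : H) _ ↦ (hH h.1).1 h.2, Finset.sum_const, Finset.card_univ,
      nsmul_eq_mul]
  obtain ⟨ψ, hψ⟩ := exists_functional (F := F) (V := M)
    (ι := {q : Cs H // q ≠ Cs.mk H 1}) (fun q ↦ L q.1 y) (fun q hq ↦ by
      apply q.2
      rw [hL, sub_eq_zero, hTy, hT] at hq
      have h1 := average_ne y H ((r q.1)⁻¹) hq
      have h2 : (r q.1)⁻¹ ∈ H := (hH _).2 h1
      rw [← hr q.1]
      refine (Cs.mk_eq_iff H _ _).2 ?_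
      simpa using h2)
  refine ⟨fun q ↦ ψ ∘ₗ L q.1, hψ, ?_, ?_⟩
  · intro z τ hτz hτH
    have hq : Cs.mk H τ ≠ Cs.mk H 1 := by
      intro hq
      rw [Cs.mk_eq_iff] at hq
      exact hτH (by simpa using H.inv_mem hq)
    refine ⟨⟨Cs.mk H τ, hq⟩, ?_⟩
    have h1 : (r (Cs.mk H τ))⁻¹ * τ ∈ H := (Cs.mk_eq_iff H _ _).1 (hr _)
    have h2 : (r (Cs.mk H τ))⁻¹ z = ((r (Cs.mk H τ))⁻¹ * τ) z := by
      rw [AlgEquiv.mul_apply, hτz]
    have h3 : T ((r (Cs.mk H τ))⁻¹ z) = T z := by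
      rw [h2, hT, hT]
      exact Fintype.sum_equiv (Equiv.mulRight (⟨_, h1⟩ : H)) _ _ (fun h ↦ rfl)
    rw [LinearMap.comp_apply, hL, h3, sub_self, map_zero]
  · intro z hz q
    rw [LinearMap.comp_apply, hL, hz, sub_self, map_zero]

end Pool.Agent.QN
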