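import Pool.Agent.QN.PFunA

/-! # The pole functionals -/

namespace Pool.Agent.QN

variable {Q M Γ K F : Type} [Field Q] [Field M] [Algebra Q M] [LinearOrderedCommGroupWithZero Γ]
  [Field K] [Infinite K] [Algebra K Q] [Algebra K M] [IsScalarTower K Q M] [Field F] [Algebra F M]
  [Algebra F Q] [IsScalarTower F Q M]

omit [Field F] [Algebra F M] [Algebra F Q] [IsScalarTower F Q M] in
/-- local integrality: the classes of cosets on which `v ∘ σ` agrees and is `> 1` at `y`
contribute at least `π⁻¹` each. -/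
theorem class_count [FiniteDimensional Q M] [IsGalois Q M] {v : Valuation M Γ} {π : Γ}
    (h : Disc Q v π) (hK : ∀ c : K, c ≠ 0 → v (algebraMap K M c) = 1)
    (H : Subgroup (M ≃ₐ[Q] M)) (y : M) (hy : ∀ g ∈ H, g y = y) (s : ℕ)
    (hs : (∏ q : Cs H, max 1 (v (cj H y q))) * π ^ s = 1) :
    ∃ (g : ℕ) (σ : Fin g → (M ≃ₐ[Q] M)), g ≤ s ∧ (s ≠ 0 → g ≠ 0) ∧ (∀ i, 1 < v (σ i y)) ∧
      ∀ τ : M ≃ₐ[Q] M, 1 < v (τ y) → ∃ i, SameV H v (σ i) τ :=
  class_count_a h hK H y hy s hs

omit [Infinite K] [Algebra K Q] [Algebra K M] [IsScalarTower K Q M] [Field K] in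
/-- a linear form that vanishes at the vectors with a small value, and not at `y` -/
theorem exists_form (v : Valuation M Γ) (hF : ∀ c : F, v (algebraMap F M c) ≤ 1)
    (σ : M ≃ₐ[Q] M) (y : M) (hy : v (σ y) ≠ 0) :
    ∃ u : M →ₗ[F] F, u y ≠ 0 ∧ ∀ z : M, v (σ z) < v (σ y) → u z = 0 := by
  classical
  let W : Submodule F M :=
    { carrier := {z | v (σ z) < v (σ y)}
      add_mem' := fun {a b} ha hb => by
        change v (σ (a + b)) < v (σ y)
        rw [map_add]
        exact v.map_add_lt ha hb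
      zero_mem' := by
        change v (σ 0) < v (σ y)
        rw [map_zero, map_zero]
        exact zero_lt_iff.2 hy
      smul_mem' := fun c {a} ha => by
        change v (σ (c • a)) < v (σ y)
        have h1 : σ (algebraMap F M c) = algebraMap F M c := by
          rw [IsScalarTower.algebraMap_apply F Q M, AlgEquiv.commutes]
        rw [Algebra.smul_def, map_mul, h1, map_mul]
        calc v (algebraMap F M c) * v (σ a) ≤ 1 * v (σ a) := by
              gcongr
              exact hF c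
          _ = v (σ a) := one_mul _
          _ < v (σ y) := ha }
  have hyW : y ∉ W := fun h => lt_irrefl _ h
  obtain ⟨f, hf, hW⟩ := Submodule.exists_le_ker_of_notMem hyW
  exact ⟨f, hf, fun z hz => hW hz⟩

theorem pole_functionals [FiniteDimensional Q M] [IsGalois Q M] {v : Valuation M Γ} {π : Γ}
    (h : Disc Q v π) (hK : ∀ c : K, c ≠ 0 → v (algebraMap K M c) = 1)
    (hF : ∀ c : F, v (algebraMap F M c) ≤ 1)
    (H : Subgroup (M ≃ₐ[Q] M)) (y : M) (hy : ∀ g ∈ H, g y = y) (q0 : Q) (hq0 : q0 ≠ 0) (s : ℕ)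
    (hs : (∏ q : Cs H, max (v (algebraMap Q M q0)) (v (cj H y q))) * π ^ s =
      v (algebraMap Q M q0) ^ Fintype.card (Cs H)) :
    ∃ u : Fin s → (M →ₗ[F] F), (∀ l, u l y ≠ 0) ∧
      (∀ z : M, (∀ g ∈ H, g z = z) → ∀ σ : M ≃ₐ[Q] M, v (algebraMap Q M q0) < v (σ y) →
        v (σ z) < v (σ y) → ∃ l, u l z = 0) ∧
      ∀ z : M, (∀ σ : M ≃ₐ[Q] M, v (σ z) ≤ v (algebraMap Q M q0)) → ∀ l, u l z = 0 := by
  classical
  have hq0M : algebraMap Q M q0 ≠ 0 := (map_ne_zero _).2 hq0
  have hth : v (algebraMap Q M q0) ≠ 0 := (Valuation.ne_zero_iff v).2 hq0M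
  have hthp : 0 < v (algebraMap Q M q0) := zero_lt_iff.2 hth
  set y' : M := algebraMap Q M q0⁻¹ * y with hy'
  have hval : ∀ σ : M ≃ₐ[Q] M, v (σ y') = (v (algebraMap Q M q0))⁻¹ * v (σ y) := by
    intro σ
    rw [hy', map_mul, AlgEquiv.commutes, map_mul, map_inv₀, map_inv₀]
  have hyH : ∀ g ∈ H, g y' = y' := by
    intro g hg
    rw [hy', map_mul, AlgEquiv.commutes, hy g hg]
  have hcj : ∀ q : Cs H, v (cj H y' q) = (v (algebraMap Q M q0))⁻¹ * v (cj H y q) := by
    intro q
    exact hval _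
  have hs' : (∏ q : Cs H, max 1 (v (cj H y' q))) * π ^ s = 1 := by
    have h1 : ∀ q : Cs H, max 1 (v (cj H y' q)) =
        (v (algebraMap Q M q0))⁻¹ * max (v (algebraMap Q M q0)) (v (cj H y q)) := by
      intro q
      have hmono : Monotone fun x : Γ => (v (algebraMap Q M q0))⁻¹ * x := fun a b hab =>
        mul_le_mul_right hab _
      have h2 := hmono.map_max (a := v (algebraMap Q M q0)) (b := v (cj H y q))
      beta_reduce at h2
      rw [hcj, h2, inv_mul_cancel₀ hth]
    rw [Finset.prod_congr rfl fun q _ => h1 q, Finset.prod_mul_distrib, Finset.prod_const,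
      Finset.card_univ, mul_assoc, hs, inv_pow, inv_mul_cancel₀ (pow_ne_zero _ hth)]
  obtain ⟨g, σ, hg, hg0, hσ, hall⟩ := class_count h hK H y' hyH s hs'
  have hlt : ∀ i, v (algebraMap Q M q0) < v (σ i y) := by
    intro i
    have h1 := hσ i
    rw [hval] at h1
    have h2 := mul_lt_mul_of_pos_left h1 hthp
    rwa [mul_one, mul_inv_cancel_left₀ hth] at h2
  choose w hw1 hw2 using fun i => exists_form (F := F) v hF (σ i) y (hthp.trans (hlt i)).ne'
  -- extend to `Fin s`
  have hidx : ∀ l : Fin s, 0 < g := by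
    intro l
    exact Nat.pos_of_ne_zero (hg0 (by have := l.2; omega))
  refine ⟨fun l => if hl : (l : ℕ) < g then w ⟨l, hl⟩ else w ⟨0, hidx l⟩, ?_, ?_, ?_⟩
  · intro l
    beta_reduce
    split_ifs with hl
    · exact hw1 _
    · exact hw1 _
  · intro z hz τ hτ hτz
    have h1 : 1 < v (τ y') := by
      rw [hval]
      have h2 := mul_lt_mul_of_pos_left hτ (inv_pos_of_pos hthp)
      rwa [inv_mul_cancel₀ hth] at h2
    obtain ⟨i, hi⟩ := hall τ h1
    refine ⟨⟨i, by have := i.2; omega⟩, ?_⟩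
    beta_reduce
    rw [dif_pos i.2]
    apply hw2
    have e1 : v (σ i z) = v (τ z) := hi z hz
    have e2 : v (σ i y) = v (τ y) := hi y hy
    change v (σ i z) < v (σ i y)
    rw [e1, e2]
    exact hτz
  · intro z hz l
    beta_reduce
    split_ifs with hl
    · exact hw2 _ _ ((hz _).trans_lt (hlt _))
    · exact hw2 _ _ ((hz _).trans_lt (hlt _))

end Pool.Agent.QN
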