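import Pool.Agent.QS.Wd

/-! # Primes and multiplicities -/

namespace Pool.Agent.QN

open MvPolynomial Pool.Agent.QS

variable {K : Type} [Field K] {k : ℕ}

/-- representatives of the primes that divide one of finitely many polynomials -/
theorem exists_primes' {ρ : ℕ} (f : Fin ρ → A K k) (hf : ∀ a, f a ≠ 0) :
    ∃ (w : ℕ) (p : Fin w → A K k), (∀ i, Prime (p i)) ∧
      (∀ i j, i ≠ j → ¬ Associated (p i) (p j)) ∧
      ∀ q : A K k, Prime q → (∃ a, q ∣ f a) → ∃ i, Associated q (p i) := by
  classical
  set S : Finset (Associates (A K k)) :=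
    (∑ a, UniqueFactorizationMonoid.factors (f a)).toFinset.image Associates.mk with hS
  have hmem : ∀ s ∈ S, ∃ x a, x ∈ UniqueFactorizationMonoid.factors (f a) ∧
      Associates.mk x = s := by
    intro s hs
    rw [hS, Finset.mem_image] at hs
    obtain ⟨x, hx, rfl⟩ := hs
    rw [Multiset.mem_toFinset, Multiset.mem_sum] at hx
    obtain ⟨a, _, ha⟩ := hx
    exact ⟨x, a, ha, rfl⟩
  let e := S.equivFin
  choose x a hx hxs using fun i : Fin S.card => hmem (e.symm i).1 (e.symm i).2
  refine ⟨S.card, x, fun i => UniqueFactorizationMonoid.prime_of_factor _ (hx i), ?_, ?_⟩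
  · intro i j hij h
    apply hij
    have h1 : Associates.mk (x i) = Associates.mk (x j) := Associates.mk_eq_mk_iff_associated.2 h
    rw [hxs, hxs] at h1
    exact e.symm.injective (Subtype.ext h1)
  · rintro q hq ⟨b, hb⟩
    obtain ⟨y, hy, hqy⟩ := UniqueFactorizationMonoid.exists_mem_factors_of_dvd (hf b)
      hq.irreducible hb
    have hyS : Associates.mk y ∈ S := by
      rw [hS, Finset.mem_image]
      refine ⟨y, ?_, rfl⟩
      rw [Multiset.mem_toFinset, Multiset.mem_sum]
      exact ⟨b, Finset.mem_univ _, hy⟩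
    refine ⟨e ⟨_, hyS⟩, hqy.trans ?_⟩
    rw [← Associates.mk_eq_mk_iff_associated, hxs, Equiv.symm_apply_apply]

/-- the sum of the multiplicities is at most the degree -/
theorem sum_mult_le {w : ℕ} (p : Fin w → A K k) (hp : ∀ i, Prime (p i))
    (hne : ∀ i j, i ≠ j → ¬ Associated (p i) (p j)) (α : A K k) (hα : α ≠ 0) :
    ∃ (m : Fin w → ℕ) (g : Fin w → A K k), (∀ i, α = p i ^ m i * g i ∧ ¬ p i ∣ g i) ∧
      ∑ i, m i ≤ α.totalDegree := by
  have hfin : ∀ i, ∃ n c, ¬ p i ∣ c ∧ α = p i ^ n * c := fun i =>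
    WfDvdMonoid.max_power_factor hα (hp i).irreducible
  choose m g hg hα' using hfin
  refine ⟨m, g, fun i => ⟨hα' i, hg i⟩, ?_⟩
  have hpd : ∀ i, 1 ≤ (p i).totalDegree := by
    intro i
    by_contra h
    have h0 : (p i).totalDegree = 0 := by omega
    rw [MvPolynomial.totalDegree_eq_zero_iff_eq_C] at h0
    have hu : IsUnit (p i) := by
      rw [h0]
      refine IsUnit.map (MvPolynomial.C : K →+* A K k) ?_
      refine isUnit_iff_ne_zero.2 fun hc => (hp i).ne_zero ?_
      rw [h0, hc, map_zero]
    exact (hp i).not_isUnit hu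
  have hdvd : ∏ i, p i ^ m i ∣ α := by
    refine Finset.prod_dvd_of_isRelPrime ?_ fun i _ => Dvd.intro _ (hα' i).symm
    intro i _ j _ hij
    refine IsRelPrime.pow ?_
    refine (hp i).irreducible.isRelPrime_iff_not_dvd.2 fun h => ?_
    exact hne i j hij ((hp i).associated_of_dvd (hp j) h)
  obtain ⟨h, hh⟩ := hdvd
  have hprod0 : ∏ i, p i ^ m i ≠ 0 := by
    intro h0; rw [h0, zero_mul] at hh; exact hα hh
  have hh0 : h ≠ 0 := by
    intro h0; rw [h0, mul_zero] at hh; exact hα hh
  have hdeg : ∀ s : Finset (Fin w), ∑ i ∈ s, m i ≤ (∏ i ∈ s, p i ^ m i).totalDegree := by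
    classical
    intro s
    induction s using Finset.induction_on with
    | empty => simp
    | insert i s hi ih =>
      rw [Finset.sum_insert hi, Finset.prod_insert hi,
        MvPolynomial.totalDegree_mul_of_isDomain (pow_ne_zero _ (hp i).ne_zero)
          (Finset.prod_ne_zero_iff.2 fun j _ => pow_ne_zero _ (hp j).ne_zero)]
      refine add_le_add ?_ ih
      have : ∀ n : ℕ, n ≤ (p i ^ n).totalDegree := by
        intro n
        induction n with
        | zero => simp
        | succ n ihn =>
          rw [pow_succ, MvPolynomial.totalDegree_mul_of_isDomain (pow_ne_zero _ (hp i).ne_zero)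
            (hp i).ne_zero]
          have := hpd i
          omega
      exact this _
  refine (hdeg Finset.univ).trans ?_
  rw [hh, MvPolynomial.totalDegree_mul_of_isDomain hprod0 hh0]
  omega

end Pool.Agent.QN
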