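import Mathlib

/-! # Maximal subspaces of a finite union, generic vectors -/

namespace Pool.Agent.QN

variable {F E : Type} [Field F] [Infinite F] [AddCommGroup E] [Module F E]

/-- a vector of `W` outside of finitely many subspaces that do not contain `W` -/
theorem exists_generic (W : Submodule F E) {ι : Type} [Finite ι] (Z : ι → Submodule F E)
    (h : ∀ l, ¬ W ≤ Z l) : ∃ y ∈ W, ∀ l, y ∉ Z l := by
  by_contra hcon
  push Not at hcon
  have h1 : ⋃ l, ((Z l).comap W.subtype : Set W) = Set.univ := by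
    refine Set.eq_univ_of_forall fun y => ?_
    obtain ⟨l, hl⟩ := hcon y y.2
    exact Set.mem_iUnion.2 ⟨l, hl⟩
  obtain ⟨l, hl⟩ := Subspace.exists_eq_top_of_iUnion_eq_univ h1
  apply h l
  intro y hy
  have h2 : (⟨y, hy⟩ : W) ∈ (Z l).comap W.subtype := by
    rw [hl]
    trivial
  exact h2

/-- the maximal subspaces of a finite union of subspaces -/
theorem exists_maximal (S : Set E) (V : Submodule F E) [FiniteDimensional F V] (N : ℕ)
    (U : Fin N → Submodule F E) (hU : ∀ i, U i ≤ V) (hS : ∀ y ∈ V, y ∈ S ↔ ∃ i, y ∈ U i)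
    (h0 : (0 : E) ∈ S) :
    ∃ (n : ℕ) (W : Fin n → Submodule F E), 0 < n ∧ (∀ i, W i ≤ V) ∧
      (∀ y ∈ V, y ∈ S ↔ ∃ i, y ∈ W i) ∧ (∀ i j, i ≠ j → ¬ W i ≤ W j) ∧
      ∀ i, ∀ y ∈ V, y ∉ W i → ∃ u ∈ W i, ∃ c : F, u + c • y ∉ S := by
  classical
  -- the maximal elements of the finite set of subspaces
  let T : Finset (Submodule F E) := Finset.univ.image U
  let T' : Finset (Submodule F E) := T.filter fun X => ∀ Y ∈ T, X ≤ Y → Y ≤ X
  have hex : ∀ X ∈ T, ∃ Y ∈ T', X ≤ Y := by
    intro X hX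
    obtain ⟨Y, hXY, hY⟩ := T.exists_le_maximal hX
    refine ⟨Y, Finset.mem_filter.2 ⟨hY.prop, fun Z hZ hYZ => hY.le_of_ge hZ hYZ⟩, hXY⟩
  have hTV : ∀ X ∈ T, X ≤ V := by
    intro X hX
    obtain ⟨i, -, rfl⟩ := Finset.mem_image.1 hX
    exact hU i
  have hTS : ∀ X ∈ T, ∀ y ∈ X, y ∈ S := by
    intro X hX y hy
    obtain ⟨i, -, rfl⟩ := Finset.mem_image.1 hX
    exact (hS y (hU i hy)).2 ⟨i, hy⟩
  have hT'T : ∀ X ∈ T', X ∈ T := fun X hX => (Finset.mem_filter.1 hX).1
  -- a subspace of `V` inside `S` is inside some member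
  have hsub : ∀ X : Submodule F E, X ≤ V → (∀ y ∈ X, y ∈ S) → ∃ i, X ≤ U i := by
    intro X hX hXS
    by_contra hcon
    push Not at hcon
    obtain ⟨y, hy, hyU⟩ := exists_generic X U hcon
    obtain ⟨i, hi⟩ := (hS y (hX hy)).1 (hXS y hy)
    exact hyU i hi
  let e := T'.equivFin
  refine ⟨T'.card, fun i => (e.symm i : Submodule F E), ?_, fun i => hTV _ (hT'T _ (e.symm i).2),
    ?_, ?_, ?_⟩
  · obtain ⟨i, -⟩ := (hS 0 V.zero_mem).1 h0
    obtain ⟨Y, hY, -⟩ := hex (U i) (Finset.mem_image_of_mem _ (Finset.mem_univ i))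
    exact Finset.card_pos.2 ⟨Y, hY⟩
  · intro y hy
    constructor
    · intro hyS
      obtain ⟨i, hi⟩ := (hS y hy).1 hyS
      obtain ⟨Y, hY, hle⟩ := hex (U i) (Finset.mem_image_of_mem _ (Finset.mem_univ i))
      refine ⟨e ⟨Y, hY⟩, ?_⟩
      change y ∈ ((e.symm (e ⟨Y, hY⟩) : T') : Submodule F E)
      rw [Equiv.symm_apply_apply]
      exact hle hi
    · rintro ⟨i, hi⟩
      exact hTS _ (hT'T _ (e.symm i).2) y hi
  · intro i j hij hle
    have h1 := (Finset.mem_filter.1 (e.symm i).2).2 _ (hT'T _ (e.symm j).2) hle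
    apply hij
    apply e.symm.injective
    exact Subtype.ext (le_antisymm hle h1)
  · intro i y hyV hy
    by_contra hcon
    push Not at hcon
    set X : Submodule F E := (e.symm i : Submodule F E) with hX
    obtain ⟨j, hj⟩ := hsub (X ⊔ Submodule.span F {y})
      (sup_le (hTV _ (hT'T _ (e.symm i).2)) ((Submodule.span_singleton_le_iff_mem _ _).2 hyV))
      (by
        intro z hz
        obtain ⟨u, hu, v, hv, rfl⟩ := Submodule.mem_sup.1 hz
        obtain ⟨c, rfl⟩ := Submodule.mem_span_singleton.1 hv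
        exact hcon u hu c)
    have h1 := (Finset.mem_filter.1 (e.symm i).2).2 (U j)
      (Finset.mem_image_of_mem _ (Finset.mem_univ j)) (le_sup_left.trans hj)
    exact hy (h1 (hj (Submodule.mem_sup_right (Submodule.mem_span_singleton_self y))))

omit [Infinite F] in
/-- a valuation that is trivial on the scalars has a generic maximum on a subspace -/
theorem exists_val_sub {M Γ : Type} [Field M] [Algebra F M] [LinearOrderedCommGroupWithZero Γ]
    (v : Valuation M Γ) (hvF : ∀ c : F, v (algebraMap F M c) ≤ 1) (W : Submodule F M)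
    [FiniteDimensional F W] (hW : W ≠ ⊥) :
    ∃ Z : Submodule F M, ¬ W ≤ Z ∧ ∀ y ∈ W, y ∉ Z → ∀ u ∈ W, v u ≤ v y := by
  classical
  have : Nontrivial W := Submodule.nontrivial_iff_ne_bot.2 hW
  let b := Module.finBasis F W
  have : Nonempty (Fin (Module.finrank F W)) := ⟨⟨0, Module.finrank_pos⟩⟩
  obtain ⟨a0, ha0⟩ := Finite.exists_max fun a => v ((b a : W) : M)
  have hpos : v ((b a0 : W) : M) ≠ 0 := by
    rw [Valuation.ne_zero_iff]
    intro h
    exact b.ne_zero a0 (Subtype.ext h)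
  have hup : ∀ u ∈ W, v u ≤ v ((b a0 : W) : M) := by
    intro u hu
    have h := congrArg (fun x : W => (x : M)) (b.sum_repr ⟨u, hu⟩)
    simp only [Submodule.coe_sum, Submodule.coe_smul] at h
    rw [← h]
    refine v.map_sum_le fun a _ => ?_
    rw [Algebra.smul_def, map_mul]
    exact (mul_le_of_le_one_left' (hvF _)).trans (ha0 a)
  let Z : Submodule F M :=
    { carrier := {z | v z < v ((b a0 : W) : M)}
      add_mem' := by
        intro x y hx hy
        exact (v.map_add _ _).trans_lt (max_lt hx hy)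
      zero_mem' := by
        rw [Set.mem_ofPred_eq, map_zero]
        exact zero_lt_iff.2 hpos
      smul_mem' := by
        intro c x hx
        rw [Set.mem_ofPred_eq, Algebra.smul_def, map_mul]
        exact (mul_le_of_le_one_left' (hvF c)).trans_lt hx }
  refine ⟨Z, fun hle => ?_, fun y hy hyZ u hu => ?_⟩
  · exact lt_irrefl _ (hle (b a0 : W).2 : v ((b a0 : W) : M) < v ((b a0 : W) : M))
  · have : ¬ v y < v ((b a0 : W) : M) := hyZ
    exact (hup u hu).trans (not_lt.1 this)

end Pool.Agent.QN
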