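import Pool.Agent.QN.Cnt
import Pool.Agent.QN.Sub
import Pool.Agent.QN.GFun
import Pool.Agent.QN.PFun
import Pool.Agent.QN.Cmp
import Pool.Agent.QN.Prm

/-! # The number of the maximal subspaces, inside a finite Galois extension -/

namespace Pool.Agent.QN

open MvPolynomial Pool.Agent.QS

section
variable {K : Type} [Field K] {k : ℕ} {M : Type} [Field M] [Algebra (A K k) M]

theorem ExM.mono {d d' : ℕ} {y : M} (h : ExM (K := K) (k := k) d y) (hd : d ≤ d') :
    ExM (K := K) (k := k) d' y := by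
  obtain ⟨R, h1, h2, h3⟩ := h
  exact ⟨R, h1, h2.trans hd, h3⟩

theorem ExM_zero {d : ℕ} (hd : 0 < d) : ExM (K := K) (k := k) d (0 : M) := by
  refine ⟨Polynomial.X, Polynomial.X_ne_zero, wd_le _ _ fun j hj => ?_, by simp⟩
  rw [Polynomial.coeff_X] at hj ⊢
  split_ifs at hj ⊢ with h
  · subst h
    rw [totalDegree_one]
    omega
  · exact absurd rfl hj

end

section
variable {K F M : Type} [Field K] [CharZero K] {k : ℕ} [Field F] [CharZero F] [Algebra F K]
    [Field M] [Algebra (A K k) M] [Algebra (Q K k) M] [IsScalarTower (A K k) (Q K k) M]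
    [FiniteDimensional (Q K k) M] [IsGalois (Q K k) M] [Algebra K M] [IsScalarTower K (Q K k) M]
    [Algebra F M] [IsScalarTower F K M] [IsScalarTower F (Q K k) M]

omit [CharZero K] [FiniteDimensional (Q K k) M] [IsGalois (Q K k) M] in
theorem algKA (c : K) : algebraMap K M c = algebraMap (A K k) M (C c) := by
  rw [IsScalarTower.algebraMap_apply K (Q K k) M, IsScalarTower.algebraMap_apply (A K k) (Q K k) M,
    IsScalarTower.algebraMap_apply K (A K k) (Q K k), MvPolynomial.algebraMap_eq]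

/-- the stabilizer -/
def stab (y : M) : Subgroup (M ≃ₐ[Q K k] M) where
  carrier := {σ | σ y = y}
  mul_mem' := by
    intro a b ha hb
    simp only [Set.mem_ofPred_eq] at ha hb ⊢
    rw [AlgEquiv.mul_apply, hb, ha]
  one_mem' := rfl
  inv_mem' := by
    intro a ha
    simp only [Set.mem_ofPred_eq] at ha ⊢
    conv_lhs => rw [← ha]
    rw [← AlgEquiv.mul_apply, inv_mul_cancel, AlgEquiv.one_apply]

omit [CharZero K] [CharZero F] [FiniteDimensional (Q K k) M] [IsGalois (Q K k) M]
  [Algebra (A K k) M] [IsScalarTower (A K k) (Q K k) M] [Algebra K M] [IsScalarTower K (Q K k) M]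
  [IsScalarTower F K M] in
theorem map_smulF (σ : M ≃ₐ[Q K k] M) (c : F) (z : M) : σ (c • z) = c • σ z := by
  rw [Algebra.smul_def, map_mul, Algebra.smul_def, IsScalarTower.algebraMap_apply F (Q K k) M,
    AlgEquiv.commutes]

omit [CharZero K] [FiniteDimensional (Q K k) M] [IsGalois (Q K k) M]
  [Algebra (A K k) M] [IsScalarTower (A K k) (Q K k) M] [Algebra K M] [IsScalarTower K (Q K k) M]
  [IsScalarTower F K M] [CharZero F] in
/-- generic stabilizer -/
theorem exists_gal_sub (W : Submodule F M) (hW : W ≠ ⊥) (τ : M ≃ₐ[Q K k] M) :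
    ∃ Z : Submodule F M, ¬ W ≤ Z ∧ ∀ y ∈ W, y ∉ Z → τ y = y → ∀ u ∈ W, τ u = u := by
  by_cases h : ∀ u ∈ W, τ u = u
  · exact ⟨⊥, fun hle => hW (le_bot_iff.1 hle), fun _ _ _ _ => h⟩
  · let Z : Submodule F M :=
      { carrier := {z | τ z = z}
        add_mem' := by
          intro a b ha hb
          simp only [Set.mem_ofPred_eq] at ha hb ⊢
          rw [map_add, ha, hb]
        zero_mem' := map_zero τ
        smul_mem' := by
          intro c z hz
          simp only [Set.mem_ofPred_eq] at hz ⊢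
          rw [map_smulF, hz] }
    exact ⟨Z, fun hle => h fun u hu => hle hu, fun y _ hy hyy => absurd hyy hy⟩

omit [CharZero K] [CharZero F] [FiniteDimensional (Q K k) M] [IsGalois (Q K k) M] in
theorem F_le_PV {Γ : Type} [LinearOrderedCommGroupWithZero Γ] {p : A K k} {v : Valuation M Γ}
    (h : IsPV p v) (c : F) : v (algebraMap F M c) ≤ 1 := by
  rw [IsScalarTower.algebraMap_apply F K M, algKA (K := K) (k := k) (M := M)]
  exact h.le_one _

omit [CharZero K] [CharZero F] [FiniteDimensional (Q K k) M] [IsGalois (Q K k) M] in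
theorem F_le_IV {Γ : Type} [LinearOrderedCommGroupWithZero Γ] {j0 : Fin k} {v : Valuation M Γ}
    (h : IsIV K j0 v) (c : F) : v (algebraMap F M c) ≤ 1 := by
  rw [IsScalarTower.algebraMap_apply F K M, algKA (K := K) (k := k) (M := M)]
  by_cases hc : algebraMap F K c = 0
  · rw [hc, C_0, map_zero, map_zero]
    exact zero_le_one
  · rw [h.const _ hc]

omit [CharZero F] in
/-- adding a variable does not change the degree -/
theorem ExM_add {d : ℕ} (hk : 0 < k) (u : M) (hu : ExM (K := K) (k := k) d u) (j : Fin k) (c : F) :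
    ExM (K := K) (k := k) d (u + c • algebraMap (A K k) M (X j)) := by
  obtain ⟨α, N, hN, hwd⟩ := exists_N d u hu (stab u) (fun σ => Iff.rfl)
  have hfix : ∀ σ : M ≃ₐ[Q K k] M, σ (c • algebraMap (A K k) M (X j)) =
      c • algebraMap (A K k) M (X j) := by
    intro σ
    rw [map_smulF, IsScalarTower.algebraMap_apply (A K k) (Q K k) M, AlgEquiv.commutes]
  obtain ⟨Γ, _, v, hv⟩ := exists_IV (K := K) (M := M) (⟨0, hk⟩ : Fin k)
  refine (ExM_of_le hN (u + c • algebraMap (A K k) M (X j)) ?_ ?_ ?_ ⟨0, hk⟩ v hv ?_).mono hwd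
  · intro g hg
    rw [map_add, hfix]
    rw [show g u = u from hg]
  · exact fun g hg => hg
  · intro p hp
    obtain ⟨Γ', _, v', hv'⟩ := exists_PV (M := M) p hp
    refine ⟨Γ', inferInstance, v', hv', fun σ => ?_⟩
    rw [map_add, hfix]
    refine (v'.map_add _ _).trans (max_le (le_max_right _ _) (le_max_of_le_left ?_))
    rw [Algebra.smul_def, map_mul]
    exact mul_le_one' (F_le_PV hv' c) (hv'.le_one _)
  · intro σ
    rw [map_add, hfix]
    refine (v.map_add _ _).trans (max_le (le_max_right _ _) (le_max_of_le_left ?_))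
    rw [Algebra.smul_def, map_mul, hv.val (X j) (X_ne_zero j), totalDegree_X, pow_one]
    exact mul_le_of_le_one_left' (F_le_IV hv c)

end

theorem number {K F M : Type} [Field K] [CharZero K] {k : ℕ} [Field F] [CharZero F] [Algebra F K]
    [Field M] [Algebra (A K k) M] [Algebra (Q K k) M] [IsScalarTower (A K k) (Q K k) M]
    [FiniteDimensional (Q K k) M] [IsGalois (Q K k) M] [Algebra K M] [IsScalarTower K (Q K k) M]
    [Algebra F M] [IsScalarTower F K M] [IsScalarTower F (Q K k) M] (hk : 0 < k) {d : ℕ}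
    (hd : 0 < d) (V : Submodule F M)
    [FiniteDimensional F V] (N : ℕ) (U : Fin N → Submodule F M) (hU : ∀ i, U i ≤ V)
    (hS : ∀ y ∈ V, ExM (K := K) (k := k) d y ↔ ∃ i, y ∈ U i) :
    ∃ (n : ℕ) (W : Fin n → Submodule F M), (∀ i, W i ≤ V) ∧
      (∀ y ∈ V, ExM (K := K) (k := k) d y ↔ ∃ i, y ∈ W i) ∧
      n ≤ max 1 (Nat.multichoose (Module.finrank F V) (d - 1)) ∧
      ((∃ j, algebraMap (A K k) M (X j) ∈ V) →
        n ≤ max 1 (Nat.multichoose (Module.finrank F V - 1) (d - 1))) := by
  classical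
  have hFinf : Infinite F := inferInstance
  obtain ⟨n, W, hn0, hWV, hWS, hWne, hWmax⟩ := exists_maximal {y : M | ExM (K := K) (k := k) d y}
    V N U hU hS (ExM_zero hd)
  refine ⟨n, W, hWV, hWS, ?_⟩
  rcases Nat.lt_or_ge 1 n with hn | hn
  swap
  · exact ⟨hn.trans (le_max_left _ _), fun _ => hn.trans (le_max_left _ _)⟩
  have hother : ∀ i : Fin n, ∃ j : Fin n, j ≠ i := by
    intro i
    have : Nontrivial (Fin n) := Fin.nontrivial_iff_two_le.2 hn
    exact exists_ne i
  have hWbot : ∀ i, W i ≠ ⊥ := by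
    intro i h
    obtain ⟨j, hj⟩ := hother i
    exact hWne i j hj.symm (h ▸ bot_le)
  have hinj : Function.Injective (algebraMap (A K k) M) := by
    rw [IsScalarTower.algebraMap_eq (A K k) (Q K k) M]
    exact (algebraMap (Q K k) M).injective.comp (IsFractionRing.injective _ _)
  -- the primes
  have halg : Algebra.IsAlgebraic (A K k) M :=
    (IsFractionRing.comap_isAlgebraic_iff (A := A K k) (K := Q K k) (C := M)).2 inferInstance
  let b := Module.finBasis F V
  have hPex : ∀ a, ∃ P : Polynomial (A K k), P ≠ 0 ∧ Polynomial.aeval ((b a : V) : M) P = 0 :=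
    fun a => halg.isAlgebraic _
  choose P hP0 hP using hPex
  obtain ⟨w, p, hpp, hpne, hpall⟩ := exists_primes' (fun a => (P a).leadingCoeff)
    (fun a => Polynomial.leadingCoeff_ne_zero.2 (hP0 a))
  choose Γp instp vp hvp using fun i => exists_PV (M := M) (p i) (hpp i)
  obtain ⟨Γi, insti, vi, hvi⟩ := exists_IV (K := K) (M := M) (⟨0, hk⟩ : Fin k)
  -- generic elements
  choose ZG hZG1 hZG2 using fun (i : Fin n) (τ : M ≃ₐ[Q K k] M) => exists_gal_sub (W i) (hWbot i) τ
  have hfd : ∀ i, FiniteDimensional F (W i) := fun i => Submodule.finiteDimensional_of_le (hWV i)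
  have hcomap : ∀ {Γ : Type} [LinearOrderedCommGroupWithZero Γ] (v : Valuation M Γ)
      (_ : ∀ c : F, v (algebraMap F M c) ≤ 1) (σ : M ≃ₐ[Q K k] M) (c : F),
      v.comap (σ : M →+* M) (algebraMap F M c) ≤ 1 := by
    intro Γ _ v hv σ c
    have h1 : (σ : M →+* M) (algebraMap F M c) = algebraMap F M c := by
      rw [IsScalarTower.algebraMap_apply F (Q K k) M]
      exact σ.commutes _
    rw [Valuation.comap_apply, h1]
    exact hv c
  choose ZP hZP1 hZP2 using fun (i : Fin n) (q : Fin w) (σ : M ≃ₐ[Q K k] M) =>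
    exists_val_sub ((vp q).comap (σ : M →+* M)) (hcomap (vp q) (F_le_PV (hvp q)) σ) (W i) (hWbot i)
  choose ZI hZI1 hZI2 using fun (i : Fin n) (σ : M ≃ₐ[Q K k] M) =>
    exists_val_sub (vi.comap (σ : M →+* M)) (hcomap vi (F_le_IV hvi) σ) (W i) (hWbot i)
  choose y hyW hyZ using fun i => exists_generic (W i)
    (ι := (M ≃ₐ[Q K k] M) ⊕ ((Fin w × (M ≃ₐ[Q K k] M)) ⊕ ((M ≃ₐ[Q K k] M) ⊕ Fin n)))
    (Sum.elim (ZG i) (Sum.elim (fun q => ZP i q.1 q.2)
      (Sum.elim (ZI i) (fun j => if j = i then ⊥ else W j)))) (by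
    rintro (τ | q | σ | j)
    · exact hZG1 i τ
    · exact hZP1 i q.1 q.2
    · exact hZI1 i σ
    · simp only [Sum.elim_inr]
      split_ifs with h
      · exact fun hle => hWbot i (le_bot_iff.1 hle)
      · exact hWne i j (Ne.symm h))
  have ha : ∀ i (τ : M ≃ₐ[Q K k] M), τ (y i) = y i → ∀ u ∈ W i, τ u = u := fun i τ =>
    hZG2 i τ (y i) (hyW i) (hyZ i (Sum.inl τ))
  have hbp : ∀ i q (σ : M ≃ₐ[Q K k] M), ∀ u ∈ W i, vp q (σ u) ≤ vp q (σ (y i)) := fun i q σ =>
    hZP2 i q σ (y i) (hyW i) (hyZ i (Sum.inr (Sum.inl (q, σ))))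
  have hbi : ∀ i (σ : M ≃ₐ[Q K k] M), ∀ u ∈ W i, vi (σ u) ≤ vi (σ (y i)) := fun i σ =>
    hZI2 i σ (y i) (hyW i) (hyZ i (Sum.inr (Sum.inr (Sum.inl σ))))
  have hcW : ∀ i j, j ≠ i → y i ∉ W j := by
    intro i j hji
    have := hyZ i (Sum.inr (Sum.inr (Sum.inr j)))
    simpa [hji] using this
  have hyV : ∀ i, y i ∈ V := fun i => hWV i (hyW i)
  have hyE : ∀ i, ExM (K := K) (k := k) d (y i) := fun i => (hWS _ (hyV i)).2 ⟨i, hyW i⟩
  have hy0 : ∀ i, y i ≠ 0 := by
    intro i h
    obtain ⟨j, hj⟩ := hother i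
    exact hcW i j hj (h ▸ (W j).zero_mem)
  -- valuations at the other primes
  have hrest : ∀ q : A K k, Prime q → (∀ i, ¬ Associated q (p i)) → ∀ {Γ : Type}
      [LinearOrderedCommGroupWithZero Γ] (v : Valuation M Γ), IsPV q v →
      ∀ z ∈ V, ∀ σ : M ≃ₐ[Q K k] M, v (σ z) ≤ 1 := by
    intro q hq hna Γ _ v hv z hz σ
    have hnd : ∀ a, ¬ q ∣ (P a).leadingCoeff := by
      intro a ha
      obtain ⟨i, hi⟩ := hpall q hq ⟨a, ha⟩
      exact hna i hi
    have hb : ∀ a, v (σ ((b a : V) : M)) ≤ 1 := by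
      intro a
      refine val_root_le (P := (P a).map (algebraMap (A K k) M)) v (fun j => ?_) ?_ _ ?_
      · rw [Polynomial.coeff_map]
        exact hv.le_one _
      · rw [Polynomial.leadingCoeff_map_of_injective hinj]
        refine le_antisymm (hv.le_one _) (not_lt.1 fun h => hnd a ((hv.lt_one _).1 h))
      · rw [Polynomial.eval_map_algebraMap]
        have h1 : Polynomial.aeval ((b a : V) : M) ((P a).map (algebraMap (A K k) (Q K k))) = 0 := by
          rw [Polynomial.aeval_map_algebraMap]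
          exact hP a
        have h2 := congrArg σ h1
        rw [map_zero] at h2
        rw [← Polynomial.aeval_map_algebraMap (Q K k), ← h2]
        exact (Polynomial.aeval_algHom_apply σ.toAlgHom _ _)
    obtain ⟨z', rfl⟩ : ∃ z' : V, (z' : M) = z := ⟨⟨z, hz⟩, rfl⟩
    have hz2 : (z' : M) = ∑ a, b.repr z' a • ((b a : V) : M) := by
      have h := congrArg (fun x : V => (x : M)) (b.sum_repr z')
      simp only [Submodule.coe_sum, Submodule.coe_smul] at h
      exact h.symm
    rw [hz2, map_sum]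
    refine v.map_sum_le fun a _ => ?_
    rw [map_smulF, Algebra.smul_def, map_mul]
    exact mul_le_one' (F_le_PV hv _) (hb a)
  -- the polynomials
  obtain ⟨H, hH⟩ : ∃ H : Fin n → Subgroup (M ≃ₐ[Q K k] M), ∀ i σ, σ ∈ H i ↔ σ (y i) = y i :=
    ⟨fun i => stab (y i), fun i σ => Iff.rfl⟩
  choose α N hN hwd using fun i => exists_N d (y i) (hyE i) (H i) (hH i)
  choose m g hmg hmsum using fun i => sum_mult_le p hpp hpne (α i) (hN i).ne
  choose ℓ hℓ1 hℓ2 hℓ3 using fun i => gal_functionals (F := F) (y i) (H i)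
    (hH i)
  have hKv : ∀ q (c : K), c ≠ 0 → vp q (algebraMap K M c) = 1 := by
    intro q c hc
    rw [algKA (K := K) (k := k) (M := M)]
    exact (hvp q).const (hpp q) c hc
  have hKi : ∀ c : K, c ≠ 0 → vi (algebraMap K M c) = 1 := by
    intro c hc
    rw [algKA (K := K) (k := k) (M := M)]
    exact hvi.const c hc
  have hKinf : Infinite K := inferInstance
  have hone : algebraMap (Q K k) M 1 = 1 := map_one _
  choose u hu1 hu2 hu3 using fun i q => pole_functionals (F := F) ((hvp q).disc (hpp q)) (hKv q)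
    (F_le_PV (hvp q)) (H i) (y i) (fun σ h => (hH i σ).1 h) (1 : Q K k) one_ne_zero (m i q) (by
      have h1 := (hN i).prime (hpp q) (hvp q)
      rw [(hvp q).val (hpp q) (α i) (g i q) (m i q) (hmg i q).1 (hmg i q).2] at h1
      rw [hone, map_one, one_pow, mul_comm]
      exact h1)
  set θ : Q K k := algebraMap (A K k) (Q K k) (X ⟨0, hk⟩) with hθ
  have hθM : algebraMap (Q K k) M θ = algebraMap (A K k) M (X ⟨0, hk⟩) := by
    rw [hθ, ← IsScalarTower.algebraMap_apply]
  have hθ0 : θ ≠ 0 := by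
    rw [hθ, Ne, map_eq_zero_iff _ (IsFractionRing.injective (A K k) (Q K k))]
    exact X_ne_zero _
  set ξ := vi (algebraMap (A K k) M (X ⟨0, hk⟩)) with hξ
  have hξ1 : 1 < ξ := hvi.one_lt
  have hξ0 : ξ ≠ 0 := (zero_lt_one.trans hξ1).ne'
  choose ui hui1 hui2 hui3 using fun i => pole_functionals (F := F) hvi.disc hKi
    (F_le_IV hvi) (H i) (y i) (fun σ h => (hH i σ).1 h) θ hθ0
    (wd (N i) - ((α i).totalDegree + Fintype.card (Cs (H i)))) (by
      have h1 := (hN i).inf hvi
      have h2 := (hN i).degree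
      rw [hvi.val (α i) (hN i).ne] at h1
      rw [hθM]
      rw [← hξ] at h1 ⊢
      obtain ⟨s, hs⟩ := Nat.exists_eq_add_of_le h2
      rw [hs] at h1 ⊢
      rw [Nat.add_sub_cancel_left, add_assoc, pow_add] at *
      have h3 := mul_left_cancel₀ (pow_ne_zero _ hξ0) h1
      rw [h3, pow_add, inv_pow, mul_assoc, mul_inv_cancel₀ (pow_ne_zero _ hξ0), mul_one])
  -- the functionals
  let ι : Fin n → Type := fun i =>
    {q : Cs (H i) // q ≠ Cs.mk (H i) 1} ⊕
      ((Σ q : Fin w, Fin (m i q)) ⊕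
        Fin (wd (N i) - ((α i).totalDegree + Fintype.card (Cs (H i)))))
  let L : ∀ i, ι i → (M →ₗ[F] F) := fun i =>
    Sum.elim (ℓ i) (Sum.elim (fun q => u i q.1 q.2) (ui i))
  have hcard : ∀ i, Fintype.card (ι i) ≤ d - 1 := by
    intro i
    have h1 : Fintype.card {q : Cs (H i) //
        q ≠ Cs.mk (H i) 1} =
        Fintype.card (Cs (H i)) - 1 := by
      rw [Fintype.card_subtype_compl, Fintype.card_subtype_eq]
    have h2 : 0 < Fintype.card (Cs (H i)) :=
      Fintype.card_pos_iff.2 ⟨Cs.mk _ 1⟩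
    have h3 := (hN i).degree
    have h4 := hmsum i
    have h5 := hwd i
    simp only [ι, Fintype.card_sum, Fintype.card_sigma, Fintype.card_fin, h1]
    omega
  have h1 : ∀ i l, L i l (y i) ≠ 0 := by
    rintro i (q | q | l)
    · exact hℓ1 i q
    · exact hu1 i q.1 q.2
    · exact hui1 i l
  have h2 : ∀ i j, i ≠ j → Fintype.card (Cs (H j)) ≤
      Fintype.card (Cs (H i)) → ∃ l, L i l (y j) = 0 := by
    intro i j hij hle
    by_cases hsub : H j ≤ H i
    · -- the same field
      have hHH : H j = H i := (eq_of_card_le _ _ hsub hle)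
      obtain ⟨u0, hu0, c, hnot⟩ := hWmax i (y j) (hyV j) (hcW j i hij)
      have hfix : ∀ g ∈ H j, g (u0 + c • y j) = u0 + c • y j := by
        intro g hg
        have e1 : g (y j) = y j := (hH j g).1 hg
        have e2 : g (y i) = y i := (hH i g).1 (hsub hg)
        rw [map_add, map_smulF, e1, ha i g e2 u0 hu0]
      -- some pole is larger
      by_contra hcon
      push Not at hcon
      apply hnot
      have hle' : ∀ {Γ : Type} [LinearOrderedCommGroupWithZero Γ] (v : Valuation M Γ)
          (_ : ∀ c : F, v (algebraMap F M c) ≤ 1) (t : Γ) (σ : M ≃ₐ[Q K k] M),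
          v (σ u0) ≤ max t (v (σ (y j))) → v (σ (u0 + c • y j)) ≤ max t (v (σ (y j))) := by
        intro Γ _ v hv t σ h
        rw [map_add, map_smulF]
        refine (v.map_add _ _).trans (max_le h (le_max_of_le_right ?_))
        rw [Algebra.smul_def, map_mul]
        exact mul_le_of_le_one_left' (hv c)
      refine (ExM_of_le (hN j) (u0 + c • y j) hfix (fun g hg => (hH j g).1 hg) ?_ ⟨0, hk⟩ vi hvi ?_).mono
        (hwd j)
      · intro q hq
        by_cases hqp : ∃ i', Associated q (p i')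
        · obtain ⟨q', hq'⟩ := hqp
          refine ⟨Γp q', instp q', vp q', ⟨(hvp q').le_one, fun f => ?_⟩, fun σ => ?_⟩
          · rw [(hvp q').lt_one]
            exact hq'.dvd_iff_dvd_left.symm
          · refine hle' (vp q') (F_le_PV (hvp q')) 1 σ ?_
            by_contra h
            rw [not_le, max_lt_iff] at h
            have h3 : vp q' (σ u0) ≤ vp q' (σ (y i)) := hbp i q' σ u0 hu0
            obtain ⟨l, hl⟩ := hu2 i q' (y j) (fun g hg => by
              rw [← hHH] at hg
              exact (hH j g).1 hg) σ (by rw [hone, map_one]; exact h.1.trans_le h3) (h.2.trans_le h3)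
            exact hcon (Sum.inr (Sum.inl ⟨q', l⟩)) hl
        · push Not at hqp
          obtain ⟨Γ', inst', v', hv'⟩ := exists_PV (M := M) q hq
          refine ⟨Γ', inst', v', hv', fun σ => ?_⟩
          refine le_max_of_le_left (hrest q hq hqp v' hv' _ ?_ σ)
          exact V.add_mem (hWV i hu0) (V.smul_mem _ (hyV j))
      · intro σ
        refine hle' vi (F_le_IV hvi) _ σ ?_
        by_contra h
        rw [not_le, max_lt_iff] at h
        have h3 : vi (σ u0) ≤ vi (σ (y i)) := hbi i σ u0 hu0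
        obtain ⟨l, hl⟩ := hui2 i (y j) (fun g hg => by
          rw [← hHH] at hg
          exact (hH j g).1 hg) σ (by rw [hθM]; exact h.1.trans_le h3) (h.2.trans_le h3)
        exact hcon (Sum.inr (Sum.inr l)) hl
    · -- different fields
      obtain ⟨τ, hτ1, hτ2⟩ := SetLike.not_le_iff_exists.1 hsub
      obtain ⟨q, hq⟩ := hℓ2 i (y j) τ ((hH j τ).1 hτ1) hτ2
      exact ⟨Sum.inl q, hq⟩
  constructor
  · refine le_max_of_le_right ?_
    exact count_forms V (d - 1) n y hyV hy0
      (fun i => Fintype.card (Cs (H i))) ι hcard L h1 h2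
  · rintro ⟨j, hj⟩
    refine le_max_of_le_right ?_
    have hfixX : ∀ σ : M ≃ₐ[Q K k] M, σ (algebraMap (A K k) M (X j)) =
        algebraMap (A K k) M (X j) := by
      intro σ
      rw [IsScalarTower.algebraMap_apply (A K k) (Q K k) M, AlgEquiv.commutes]
    have hXW : ∀ i, algebraMap (A K k) M (X j) ∈ W i := by
      intro i
      by_contra hcon
      obtain ⟨u0, hu0, c, hnot⟩ := hWmax i _ hj hcon
      exact hnot (ExM_add hk u0 ((hWS _ (hWV i hu0)).2 ⟨i, hu0⟩) j c)
    refine count_forms' V (d - 1) n y hyV (algebraMap (A K k) M (X j)) hj ?_ ?_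
      (fun i => Fintype.card (Cs (H i))) ι hcard L h1 h2 ?_
    · rw [Ne, map_eq_zero_iff _ hinj]
      exact X_ne_zero j
    · intro i hmem
      obtain ⟨i', hi'⟩ := hother i
      refine hcW i i' hi' ?_
      have : Submodule.span F {algebraMap (A K k) M (X j)} ≤ W i' := by
        rw [Submodule.span_singleton_le_iff_mem]
        exact hXW i'
      exact this hmem
    · rintro i (q | q | l)
      · exact hℓ3 i _ hfixX q
      · refine hu3 i q.1 _ (fun σ => ?_) q.2
        rw [hfixX, hone, map_one]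
        exact (hvp q.1).le_one _
      · refine hui3 i _ (fun σ => ?_) l
        rw [hfixX, hθM, hvi.val (X j) (X_ne_zero j), totalDegree_X, pow_one]

end Pool.Agent.QN
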