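import Pool.Agent.QN.Num
import Pool.Agent.QS.Rec

/-! # The number of the maximal subspaces, inside the algebraic closure -/

namespace Pool.Agent.QN

open MvPolynomial Pool.Agent.QS

private theorem numO_union {K F : Type} [Field K] [CharZero K] {k : ℕ} [Field F]
    [Algebra F K] (hk : 0 < k) {d : ℕ} (hd : 0 < d) (V : Submodule F (Om K k))
    [FiniteDimensional F V] :
    ∃ (N : ℕ) (U : Fin N → Submodule F (Om K k)), (∀ i, U i ≤ V) ∧
      ∀ y ∈ V, Ex K k d y ↔ ∃ i, y ∈ U i := by
  have h0 : Ex K k d 0 := by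
    refine ⟨X 0, X_ne_zero 0, ?_, ?_⟩
    · rw [totalDegree_X]; exact hd
    · rw [aeval_X]; rfl
  obtain ⟨n, U, -, hU, hS⟩ := rec_step (F := F) (E := Om K k) {y | Ex K k d y} h0
    (fun r => Bd r d) (fun a b hab => Nat.mul_le_mul (by omega) (Nat.pow_le_pow_right hd (by omega)))
    (fun r => Nat.mul_pos (by omega) (pow_pos hd _))
    (fun ρ η hη => key hk hd (fun c => ⟨algebraMap F K c,
      IsScalarTower.algebraMap_apply F K (Om K k) c⟩) η hη) _ V le_rfl
  exact ⟨n, U, hU, hS⟩

private theorem numO_field {K F : Type} [Field K] [CharZero K] {k : ℕ} [Field F]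
    [Algebra F K] (V : Submodule F (Om K k)) [FiniteDimensional F V] :
    ∃ M : IntermediateField (Q K k) (Om K k), FiniteDimensional (Q K k) M ∧
      IsGalois (Q K k) M ∧ ∀ y ∈ V, y ∈ M := by
  classical
  obtain ⟨s, hs⟩ : ∃ s : Finset (Om K k), Submodule.span F (s : Set (Om K k)) = V :=
    Submodule.fg_iff_finiteDimensional V |>.2 inferInstance
  let L : IntermediateField (Q K k) (Om K k) := IntermediateField.adjoin (Q K k) (s : Set (Om K k))
  have hL : FiniteDimensional (Q K k) L :=
    IntermediateField.finiteDimensional_adjoin fun x _ => Algebra.IsIntegral.isIntegral x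
  refine ⟨IntermediateField.normalClosure (Q K k) L (Om K k), inferInstance, ?_, ?_⟩
  · exact ⟨⟩
  · intro y hy
    apply IntermediateField.le_normalClosure L
    rw [← hs] at hy
    refine Submodule.span_induction (p := fun x _ => x ∈ L) ?_ ?_ ?_ ?_ hy
    · intro x hx
      exact IntermediateField.subset_adjoin _ _ hx
    · exact L.zero_mem
    · intro x y _ _ hx hy
      exact L.add_mem hx hy
    · intro c x _ hx
      rw [Algebra.smul_def, IsScalarTower.algebraMap_apply F (Q K k) (Om K k)]
      exact L.mul_mem (L.algebraMap_mem _) hx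

/-- `M` = a finite Galois extension of `K(X)` inside `Om` that contains `V`; the finite union from
`QS.rec_step` and `QS.key`. -/
theorem number_Om {K F : Type} [Field K] [CharZero K] {k : ℕ} [Field F] [CharZero F]
    [Algebra F K] (hk : 0 < k) {d : ℕ} (hd : 0 < d) (V : Submodule F (Om K k))
    [FiniteDimensional F V] :
    ∃ (n : ℕ) (W : Fin n → Submodule F (Om K k)), (∀ i, W i ≤ V) ∧
      (∀ y ∈ V, Ex K k d y ↔ ∃ i, y ∈ W i) ∧
      n ≤ max 1 (Nat.multichoose (Module.finrank F V) (d - 1)) ∧
      ((∃ j, gx K k j ∈ V) → n ≤ max 1 (Nat.multichoose (Module.finrank F V - 1) (d - 1))) := by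
  classical
  obtain ⟨N, U, hU, hS⟩ := numO_union hk hd V
  obtain ⟨M, hMf, hMg, hVM⟩ := numO_field V
  have i1 : IsScalarTower (A K k) (Q K k) M := inferInstance
  have i2 : IsScalarTower K (Q K k) M := inferInstance
  have i3 : IsScalarTower F K M := IsScalarTower.of_algebraMap_eq fun c =>
    Subtype.ext (IsScalarTower.algebraMap_apply F K (Om K k) c)
  have i4 : IsScalarTower F (Q K k) M := inferInstance
  have i5 : IsScalarTower (A K k) M (Om K k) := IsScalarTower.of_algebraMap_eq fun a => rfl
  let g : M →ₗ[F] Om K k :=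
    { toFun := fun y => (y : Om K k)
      map_add' := fun a b => rfl
      map_smul' := fun c a => rfl }
  have hg : Function.Injective g := Subtype.val_injective
  have hgr : V ≤ LinearMap.range g := fun y hy => ⟨⟨y, hVM y hy⟩, rfl⟩
  have hmc : ∀ W : Submodule F (Om K k), W ≤ V → (W.comap g).map g = W := fun W hW =>
    Submodule.map_comap_eq_of_le (hW.trans hgr)
  let V' : Submodule F M := V.comap g
  let e : V' ≃ₗ[F] V :=
    (Submodule.equivMapOfInjective g hg V').trans (LinearEquiv.ofEq _ _ (hmc V le_rfl))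
  have hfd : FiniteDimensional F V' := e.symm.finiteDimensional
  have hfr : Module.finrank F V' = Module.finrank F V := e.finrank_eq
  have hEx : ∀ y : M, ExM (K := K) (k := k) d y ↔ Ex K k d (g y) := by
    intro y
    rw [Ex_iff]
    have h1 : ∀ R : Polynomial (A K k), Polynomial.aeval (g y) R = g (Polynomial.aeval y R) := by
      intro R
      have h2 := Polynomial.aeval_algebraMap_apply (R := A K k) (A := M) (Om K k) y R
      exact h2
    constructor
    · rintro ⟨R, hR, hw, h⟩
      exact ⟨R, hR, hw, by rw [h1, h, map_zero]⟩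
    · rintro ⟨R, hR, hw, h⟩
      refine ⟨R, hR, hw, hg ?_⟩
      rw [← h1, h, map_zero]
  obtain ⟨n, W, hW, hWS, hn, hn'⟩ := number (K := K) (F := F) (M := M) hk hd V' N
    (fun i => (U i).comap g) (fun i => Submodule.comap_mono (hU i)) (fun y hy => by
      rw [hEx]
      exact hS (g y) hy)
  refine ⟨n, fun i => (W i).map g, ?_, ?_, ?_, ?_⟩
  · intro i
    rintro _ ⟨z, hz, rfl⟩
    exact hW i hz
  · intro y hy
    obtain ⟨z, rfl⟩ := hgr hy
    rw [← hEx, hWS z hy]
    constructor
    · rintro ⟨i, hi⟩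
      exact ⟨i, z, hi, rfl⟩
    · rintro ⟨i, z', hz', h⟩
      rw [← hg h]
      exact ⟨i, hz'⟩
  · rw [← hfr]
    exact hn
  · rintro ⟨j, hj⟩
    rw [← hfr]
    exact hn' ⟨j, hj⟩

end Pool.Agent.QN
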