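import Pool.Agent.QN.Apx
import Pool.Agent.QS.Gl

/-! # The number of the classes of poles -/

namespace Pool.Agent.QN

open Polynomial

variable {Q M Γ K : Type} [Field Q] [Field M] [Algebra Q M] [LinearOrderedCommGroupWithZero Γ]
  [Field K] [Infinite K] [Algebra K Q] [Algebra K M] [IsScalarTower K Q M]

/-- the product of the values over one class is at least `π⁻¹` -/
theorem class_one [FiniteDimensional Q M] [IsGalois Q M] {v : Valuation M Γ} {π : Γ}
    (h : Disc Q v π) (hK : ∀ c : K, c ≠ 0 → v (algebraMap K M c) = 1)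
    (H : Subgroup (M ≃ₐ[Q] M)) (y : M) (hy : ∀ g ∈ H, g y = y) (σ : M ≃ₐ[Q] M)
    (hσ : 1 < v (σ y)) (C : Finset (Cs H))
    (hC : ∀ τ : M ≃ₐ[Q] M, Cs.mk H τ ∈ C ↔ SameV H v σ τ) :
    1 ≤ (∏ q ∈ C, v (cj H y q)) * π := by
  classical
  obtain ⟨b, hb1, hb2, hb3⟩ := exists_single_pole h hK H y hy σ
  obtain ⟨nQ, -, hn⟩ := cj_poly H b hb1
  have hyC : ∀ q ∈ C, v (cj H y q) = v (σ y) := by
    intro q hq
    obtain ⟨τ, rfl⟩ := Cs.mk_surjective H q
    rw [cj_mk H y hy, (hC τ).1 hq y hy]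
  have hbC : ∀ q ∈ C, max 1 (v (cj H b q)) = v (cj H y q) := by
    intro q hq
    have h1 := hyC q hq
    obtain ⟨τ, rfl⟩ := Cs.mk_surjective H q
    rw [cj_mk H b hb1, hb2 τ ((hC τ).1 hq)]
    rw [cj_mk H y hy] at h1 ⊢
    exact max_eq_right (by rw [h1]; exact hσ.le)
  have hbn : ∀ q, q ∉ C → max 1 (v (cj H b q)) = 1 := by
    intro q hq
    obtain ⟨τ, rfl⟩ := Cs.mk_surjective H q
    rw [cj_mk H b hb1]
    exact max_eq_left (hb3 τ fun hs => hq ((hC τ).2 hs))
  have hprod : ∏ q : Cs H, max 1 (v (cj H b q)) = ∏ q ∈ C, v (cj H y q) := by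
    rw [← Finset.prod_subset (Finset.subset_univ C) fun q _ hq => hbn q hq]
    exact Finset.prod_congr rfl hbC
  have hg := QS.gauss_prod1 v (Finset.univ : Finset (Cs H)) (fun q => X - Polynomial.C (cj H b q))
    (fun q => max 1 (v (cj H b q)))
    (fun q _ => (lt_max_of_lt_left one_pos).ne')
    (fun q _ m => by
      rw [coeff_sub, coeff_X, coeff_C]
      rcases m with _ | _ | m
      · simp
      · simp
      · simp)
    (fun q _ => by
      rcases le_total (v (cj H b q)) 1 with h1 | h1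
      · exact ⟨1, by rw [max_eq_left h1]; simp [coeff_X]⟩
      · exact ⟨0, by rw [max_eq_right h1]; simp [coeff_X, coeff_C]⟩)
  obtain ⟨m, hm⟩ := hg.2
  rw [hprod, ← hn, coeff_map] at hm
  have hσC : Cs.mk H σ ∈ C := (hC σ).2 fun z _ => rfl
  have hgt : 1 < ∏ q ∈ C, v (cj H y q) := by
    rw [Finset.prod_congr rfl hyC, Finset.prod_const]
    exact one_lt_pow₀ hσ (Finset.card_ne_zero_of_mem hσC)
  have hne : nQ.coeff m ≠ 0 := by
    intro h0
    rw [h0, map_zero, map_zero] at hm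
    rw [← hm] at hgt
    exact absurd hgt (not_lt.2 zero_le_one)
  obtain ⟨t, ht⟩ := h.val _ hne
  rw [← hm, ht] at hgt ⊢
  have ht0 : t < 0 := by
    by_contra hc
    rw [not_lt] at hc
    exact absurd hgt (not_lt.2 (zpow_le_one₀ h.pos h.lt.le hc))
  rw [← zpow_add_one₀ h.pos.ne']
  exact one_le_zpow_of_nonpos₀ h.pos h.lt.le (by omega)

/-- local integrality: the classes of cosets on which `v ∘ σ` agrees and is `> 1` at `y`
contribute at least `π⁻¹` each. -/
theorem class_count_a [FiniteDimensional Q M] [IsGalois Q M] {v : Valuation M Γ} {π : Γ}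
    (h : Disc Q v π) (hK : ∀ c : K, c ≠ 0 → v (algebraMap K M c) = 1)
    (H : Subgroup (M ≃ₐ[Q] M)) (y : M) (hy : ∀ g ∈ H, g y = y) (s : ℕ)
    (hs : (∏ q : Cs H, max 1 (v (cj H y q))) * π ^ s = 1) :
    ∃ (g : ℕ) (σ : Fin g → (M ≃ₐ[Q] M)), g ≤ s ∧ (s ≠ 0 → g ≠ 0) ∧ (∀ i, 1 < v (σ i y)) ∧
      ∀ τ : M ≃ₐ[Q] M, 1 < v (τ y) → ∃ i, SameV H v (σ i) τ := by
  classical
  let B : Finset (Cs H) := Finset.univ.filter fun q => 1 < v (cj H y q)
  let cls : Cs H → Finset (Cs H) := fun q => Finset.univ.filter fun q' =>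
    ∀ z : M, (∀ g ∈ H, g z = z) → v (cj H z q) = v (cj H z q')
  have hcls : ∀ q q', q' ∈ cls q ↔ ∀ z : M, (∀ g ∈ H, g z = z) → v (cj H z q) = v (cj H z q') := by
    intro q q'
    simp [cls]
  have hB : ∀ q, q ∈ B ↔ 1 < v (cj H y q) := by
    intro q
    simp [B]
  have hrefl : ∀ q, q ∈ cls q := fun q => (hcls q q).2 fun z _ => rfl
  have hclsC : ∀ σ τ : M ≃ₐ[Q] M, Cs.mk H τ ∈ cls (Cs.mk H σ) ↔ SameV H v σ τ := by
    intro σ τ
    rw [hcls]
    unfold SameV
    constructor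
    · intro h1 z hz
      have := h1 z hz
      rwa [cj_mk H z hz, cj_mk H z hz] at this
    · intro h1 z hz
      rw [cj_mk H z hz, cj_mk H z hz]
      exact h1 z hz
  have hclseq : ∀ q q', q' ∈ cls q → cls q' = cls q := by
    intro q q' hq
    ext q''
    rw [hcls, hcls]
    have := (hcls q q').1 hq
    constructor
    · intro h1 z hz
      rw [this z hz]
      exact h1 z hz
    · intro h1 z hz
      rw [← this z hz]
      exact h1 z hz
  let 𝒞 : Finset (Finset (Cs H)) := B.image cls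
  -- the product over the poles
  have hP : ∏ q : Cs H, max 1 (v (cj H y q)) = ∏ q ∈ B, v (cj H y q) := by
    rw [← Finset.prod_subset (Finset.subset_univ B)
      (f := fun q => max 1 (v (cj H y q))) fun q _ hq => by
        rw [hB, not_lt] at hq
        exact max_eq_left hq]
    exact Finset.prod_congr rfl fun q hq => max_eq_right ((hB q).1 hq).le
  have hfib : ∏ q ∈ B, v (cj H y q) = ∏ c ∈ 𝒞, ∏ q ∈ B with cls q = c, v (cj H y q) :=
    (Finset.prod_fiberwise_of_maps_to (fun q hq => Finset.mem_image_of_mem cls hq) _).symm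
  have hone : ∀ c ∈ 𝒞, 1 ≤ (∏ q ∈ B with cls q = c, v (cj H y q)) * π := by
    intro c hc
    obtain ⟨q0, hq0, rfl⟩ := Finset.mem_image.1 hc
    have hset : (B.filter fun q => cls q = cls q0) = cls q0 := by
      ext q
      rw [Finset.mem_filter]
      constructor
      · rintro ⟨-, h2⟩
        rw [← h2]
        exact hrefl q
      · intro h1
        refine ⟨?_, hclseq q0 q h1⟩
        rw [hB, ← (hcls q0 q).1 h1 y hy]
        exact (hB q0).1 hq0
    rw [hset]
    obtain ⟨σ, rfl⟩ := Cs.mk_surjective H q0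
    have h1 := (hB _).1 hq0
    rw [cj_mk H y hy] at h1
    exact class_one h hK H y hy σ h1 _ (hclsC σ)
  have hle : 1 ≤ (∏ q : Cs H, max 1 (v (cj H y q))) * π ^ 𝒞.card := by
    rw [hP, hfib, ← Finset.prod_const, ← Finset.prod_mul_distrib]
    exact Finset.one_le_prod' hone
  have hpos : (∏ q : Cs H, max 1 (v (cj H y q))) ≠ 0 :=
    Finset.prod_ne_zero_iff.2 fun q _ => (lt_max_of_lt_left one_pos).ne'
  have hcard : 𝒞.card ≤ s := by
    by_contra hc
    rw [not_le] at hc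
    have h1 : π ^ 𝒞.card < π ^ s := pow_lt_pow_right_of_lt_one₀ h.pos h.lt hc
    have h2 : (∏ q : Cs H, max 1 (v (cj H y q))) * π ^ 𝒞.card <
        (∏ q : Cs H, max 1 (v (cj H y q))) * π ^ s := by
      exact mul_lt_mul_of_pos_left h1 (zero_lt_iff.2 hpos)
    rw [hs] at h2
    exact absurd hle (not_le.2 h2)
  have hrep : ∀ i : Fin 𝒞.card, ∃ σ : M ≃ₐ[Q] M, 1 < v (σ y) ∧
      cls (Cs.mk H σ) = (𝒞.equivFin.symm i : Finset (Cs H)) := by
    intro i
    obtain ⟨q0, hq0, h0⟩ := Finset.mem_image.1 (𝒞.equivFin.symm i).2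
    obtain ⟨σ, rfl⟩ := Cs.mk_surjective H q0
    refine ⟨σ, ?_, h0⟩
    have h1 := (hB _).1 hq0
    rwa [cj_mk H y hy] at h1
  choose σ hσ1 hσ2 using hrep
  refine ⟨𝒞.card, σ, hcard, ?_, hσ1, ?_⟩
  · intro hs0 h0
    have hBe : B = ∅ := by
      have := Finset.card_eq_zero.1 h0
      exact Finset.image_eq_empty.1 this
    rw [hP, hBe, Finset.prod_empty, one_mul] at hs
    exact absurd hs (pow_lt_one₀ zero_le h.lt hs0).ne
  · intro τ hτ
    have hτB : Cs.mk H τ ∈ B := by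
      rw [hB, cj_mk H y hy]
      exact hτ
    refine ⟨𝒞.equivFin ⟨cls (Cs.mk H τ), Finset.mem_image_of_mem cls hτB⟩, ?_⟩
    rw [← hclsC, hσ2, Equiv.symm_apply_apply]
    exact hrefl _

end Pool.Agent.QN
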