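import Pool.Agent.QN.NumO
import Pool.Agent.QSP.Tr
import Pool.Agent.QSP.Place
import Pool.Agent.QT.Tuples

/-! # Transfer to a point without relations of small degree -/

namespace Pool.Agent.QN

open MvPolynomial Pool.Agent.QS Pool.Agent.QT

theorem multichoose_mono {a b : ℕ} (h : a ≤ b) (m : ℕ) :
    Nat.multichoose a m ≤ Nat.multichoose b m := by
  rw [Nat.multichoose_eq, Nat.multichoose_eq]
  exact Nat.choose_le_choose _ (by omega)

theorem not_good_iff {K L : Type} [Field K] [Field L] [Algebra K L] {k d : ℕ} {x : Fin k → L}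
    {y : L} : (¬ Good K d (Fin.cons y x : Fin (k + 1) → L)) ↔ ExL K d x y := by
  unfold Good ExL
  push Not
  constructor
  · rintro ⟨P, h1, h2, h3⟩
    exact ⟨P, h3, h1, h2⟩
  · rintro ⟨P, h1, h2, h3⟩
    exact ⟨P, h2, h3, h1⟩

theorem union_subspaces2 {K L F : Type} [Field K] [CharZero K] [IsAlgClosed K] [Field L]
    [Algebra K L] [Field F] [Algebra F L]
    (hF : ∀ c : F, ∃ c' : K, algebraMap F L c = algebraMap K L c')
    {k d r : ℕ} (hk : 0 < k) (hd : 0 < d) (x : Fin k → L) (hx : Good K (d ^ (r + 1)) x)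
    (V : Submodule F L) [FiniteDimensional F V] (hV : Module.finrank F V ≤ r) :
    ∃ (n : ℕ) (U : Fin n → Submodule F L), n ≤ max 1 (Nat.multichoose r (d - 1)) ∧
      ((∃ j, x j ∈ V) → n ≤ max 1 (Nat.multichoose (r - 1) (d - 1))) ∧ (∀ i, U i ≤ V) ∧
      ∀ y ∈ V, (¬ Good K d (Fin.cons y x : Fin (k + 1) → L)) ↔ ∃ i, y ∈ U i := by
  classical
  -- the scalars
  choose f hf using hF
  have hKi : Function.Injective (algebraMap K L) := (algebraMap K L).injective
  let σ : F →+* K :=
    { toFun := f
      map_one' := hKi (by rw [← hf, map_one, map_one])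
      map_mul' := fun a b => hKi (by rw [← hf, map_mul, map_mul, hf, hf])
      map_zero' := hKi (by rw [← hf, map_zero, map_zero])
      map_add' := fun a b => hKi (by rw [← hf, map_add, map_add, hf, hf]) }
  have hσ : ∀ c, algebraMap F L c = algebraMap K L (σ c) := hf
  let iFK : Algebra F K := σ.toAlgebra
  have hchar : CharZero F := ⟨fun a b hab => by
    have h1 := congrArg σ hab
    rw [map_natCast, map_natCast] at h1
    exact Nat.cast_injective h1⟩
  have hFK : ∀ c : F, algebraMap F K c = σ c := fun _ => rfl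
  have hFO : ∀ c : F, algebraMap F (Om K k) c = algebraMap K (Om K k) (σ c) := fun c => by
    rw [IsScalarTower.algebraMap_apply F K (Om K k) c, hFK]
  -- a basis of the span of the exceptional vectors
  let SV : Set V := {y | ExL K d x (y : L)}
  obtain ⟨b, hbS, hbspan, hbli⟩ := exists_linearIndependent F SV
  have hbf : b.Finite := hbli.setFinite
  have : Fintype b := hbf.fintype
  obtain ⟨ρ, hρ⟩ : ∃ ρ, ρ = Fintype.card b := ⟨_, rfl⟩
  have hρr : ρ ≤ r := by
    rw [hρ]
    exact hbli.fintype_card_le_finrank.trans hV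
  let e : Fin ρ ≃ b := (Fintype.equivFinOfCardEq hρ.symm).symm
  let η : Fin ρ → V := fun a => (e a).1
  have hη : ∀ a, ExL K d x (η a : L) := fun a => hbS (e a).2
  have hηli : LinearIndependent F fun a => (η a : L) := by
    have h1 : LinearIndependent F η := hbli.comp e e.injective
    exact h1.map' V.subtype (Submodule.ker_subtype V)
  have hd1 : d ≤ d ^ (r + 1) := Nat.le_self_pow (Nat.succ_ne_zero r) d
  have hx' : ∀ f : A K k, f.totalDegree ≤ d ^ (ρ + 1) → aeval x f = 0 → f = 0 := fun f h1 h2 =>
    hx f (h1.trans (Nat.pow_le_pow_right hd (by omega))) h2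
  -- the lifts
  obtain ⟨B, φ, hφ, hroot⟩ := exists_place (K := K) x
  have hlift : ∀ a, ∃ (β : Om K k) (h : β ∈ B), Ex K k d β ∧ φ ⟨β, h⟩ = (η a : L) := fun a =>
    exists_lift x (fun f h1 h2 => hx f (h1.trans hd1) h2) B φ hroot _ (hη a)
  choose β hβB hβE hφβ using hlift
  let S : (Fin ρ → F) →ₗ[F] L := Fintype.linearCombination F fun a => (η a : L)
  let T : (Fin ρ → F) →ₗ[F] Om K k := Fintype.linearCombination F β
  have hSc : ∀ c, S c = ∑ a, algebraMap K L (σ (c a)) * φ ⟨β a, hβB a⟩ := by
    intro c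
    change Fintype.linearCombination F (fun a => (η a : L)) c = _
    rw [Fintype.linearCombination_apply]
    refine Finset.sum_congr rfl fun a _ => ?_
    rw [hφβ, Algebra.smul_def, hσ]
  have hTc : ∀ c, T c = ∑ a, algebraMap K (Om K k) (σ (c a)) * β a := by
    intro c
    change Fintype.linearCombination F β c = _
    rw [Fintype.linearCombination_apply]
    refine Finset.sum_congr rfl fun a _ => ?_
    rw [Algebra.smul_def, hFO]
  have key : ∀ (c : Fin ρ → F) (R : MvPolynomial (Fin (k + 1)) K), R.totalDegree ≤ d →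
      (aeval (Fin.cons (S c) x : Fin (k + 1) → L) R = 0 ↔
        aeval (Fin.cons (T c) (gx K k) : Fin (k + 1) → Om K k) R = 0) := by
    intro c R hR
    rw [hSc, hTc]
    exact transfer_rel' x hx' B φ hφ β hβB hβE (fun a => σ (c a)) R hR
  have hEx : ∀ c, ExL K d x (S c) ↔ Ex K k d (T c) := by
    intro c
    constructor
    · rintro ⟨P, h1, h2, h3⟩
      exact ⟨P, h1, h2, (key c P h2).1 h3⟩
    · rintro ⟨P, h1, h2, h3⟩
      exact ⟨P, h1, h2, (key c P h2).2 h3⟩
  have hspan : ∀ y, ∀ hy : y ∈ V, ExL K d x y → ∃ c, S c = y := by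
    intro y hy h
    have h1 : (⟨y, hy⟩ : V) ∈ Submodule.span F b := by
      rw [hbspan]
      exact Submodule.subset_span h
    have h2 : Set.range η = b := by
      ext z
      constructor
      · rintro ⟨a, rfl⟩
        exact (e a).2
      · intro hz
        exact ⟨e.symm ⟨z, hz⟩, by simp [η]⟩
    rw [← h2, Submodule.mem_span_range_iff_exists_fun] at h1
    obtain ⟨c, hc⟩ := h1
    refine ⟨c, ?_⟩
    have h3 := congrArg (fun z : V => (z : L)) hc
    simpa [S, Fintype.linearCombination_apply] using h3
  have hTli : LinearIndependent F β := by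
    rw [Fintype.linearIndependent_iff]
    intro c hc
    have h1 : T c = 0 := by
      change Fintype.linearCombination F β c = _
      rw [Fintype.linearCombination_apply, hc]
    have h2 := (key c (X 0) (by rw [totalDegree_X]; exact hd)).2 (by
      rw [aeval_X]
      exact h1)
    rw [aeval_X] at h2
    change S c = 0 at h2
    have h3 : ∑ a, c a • (η a : L) = 0 := by
      rw [← Fintype.linearCombination_apply F (fun a => (η a : L)) c]
      exact h2
    exact Fintype.linearIndependent_iff.1 hηli c h3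
  let V' : Submodule F (Om K k) := Submodule.span F (Set.range β)
  have hfin : FiniteDimensional F V' := FiniteDimensional.span_of_finite F (Set.finite_range β)
  have hrank : Module.finrank F V' = ρ := by
    rw [finrank_span_eq_card hTli, Fintype.card_fin]
  have hTV : ∀ c, T c ∈ V' := by
    intro c
    change Fintype.linearCombination F β c ∈ _
    rw [Fintype.linearCombination_apply]
    exact Submodule.sum_mem _ fun a _ => Submodule.smul_mem _ _
      (Submodule.subset_span ⟨a, rfl⟩)
  obtain ⟨n, W, hWV, hW, hn, hn'⟩ := number_Om hk hd V'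
  rw [hrank] at hn hn'
  refine ⟨n, fun i => ((W i).comap T).map S, ?_, ?_, ?_, ?_⟩
  · exact hn.trans (max_le_max le_rfl (multichoose_mono hρr _))
  · rintro ⟨j, hj⟩
    refine (hn' ⟨j, ?_⟩).trans (max_le_max le_rfl (multichoose_mono (by omega) _))
    have hne : (X 0 - X j.succ : MvPolynomial (Fin (k + 1)) K) ≠ 0 := by
      intro h
      rw [sub_eq_zero] at h
      exact (Fin.succ_ne_zero j).symm (X_injective h)
    have htd : (X 0 - X j.succ : MvPolynomial (Fin (k + 1)) K).totalDegree ≤ d := by
      refine (totalDegree_sub _ _).trans ?_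
      rw [totalDegree_X, totalDegree_X, max_self]
      exact hd
    have h0 : aeval (Fin.cons (x j) x : Fin (k + 1) → L)
        (X 0 - X j.succ : MvPolynomial (Fin (k + 1)) K) = 0 := by
      rw [map_sub, aeval_X, aeval_X, Fin.cons_zero, Fin.cons_succ, sub_self]
    obtain ⟨c, hc⟩ := hspan (x j) hj ⟨_, hne, htd, h0⟩
    have h1 := (key c _ htd).1 (by rw [hc]; exact h0)
    rw [map_sub, aeval_X, aeval_X, Fin.cons_zero, Fin.cons_succ, sub_eq_zero] at h1
    rw [← h1]
    exact hTV c
  · rintro i y ⟨c, -, rfl⟩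
    change Fintype.linearCombination F (fun a => (η a : L)) c ∈ V
    rw [Fintype.linearCombination_apply]
    exact Submodule.sum_mem _ fun a _ => Submodule.smul_mem _ _ (η a).2
  · intro y hy
    rw [not_good_iff]
    constructor
    · intro h
      obtain ⟨c, rfl⟩ := hspan y hy h
      obtain ⟨i, hi⟩ := (hW (T c) (hTV c)).1 ((hEx c).1 h)
      exact ⟨i, c, hi, rfl⟩
    · rintro ⟨i, c, hc, rfl⟩
      exact (hEx c).2 ((hW (T c) (hTV c)).2 ⟨i, hc⟩)

end Pool.Agent.QN
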